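import Mathlib

set_option autoImplicit false

namespace Pool.Agent.Results.MP_94c9ac_al.Q1AllGroups.Peb

open Multiset

section basic
variable {V : Type*} (Mov : V → V → ℕ → Prop)

/-- One move: `q > 0` pebbles at `x` are replaced by one pebble at `y`, if `Mov x y q`. -/
def Step (p p' : Multiset V) : Prop :=
  ∃ (x y : V) (q : ℕ) (t : Multiset V), 0 < q ∧ Mov x y q ∧ p = replicate q x + t ∧ p' = y ::ₘ t

/-- Reachability by moves. -/
def Red (p p' : Multiset V) : Prop := Relation.ReflTransGen (Step Mov) p p'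

/-- At least `k` pebbles can be brought to `x`. -/
def Kp (x : V) (k : ℕ) (p : Multiset V) : Prop := ∃ t, Red Mov p (replicate k x + t)

variable {Mov}

lemma Red.refl (p : Multiset V) : Red Mov p p := Relation.ReflTransGen.refl

lemma Red.trans {p q r : Multiset V} (h1 : Red Mov p q) (h2 : Red Mov q r) : Red Mov p r :=
  Relation.ReflTransGen.trans h1 h2

lemma Step.add_right {p p' : Multiset V} (s : Multiset V) (h : Step Mov p p') :
    Step Mov (p + s) (p' + s) := by
  obtain ⟨x, y, q, t, hq, hm, rfl, rfl⟩ := h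
  exact ⟨x, y, q, t + s, hq, hm, by rw [add_assoc], by rw [cons_add]⟩

lemma Red.add_right {p p' : Multiset V} (s : Multiset V) (h : Red Mov p p') :
    Red Mov (p + s) (p' + s) := by
  induction h with
  | refl => exact Red.refl _
  | tail _ hbc ih => exact Relation.ReflTransGen.tail ih (hbc.add_right s)

lemma Red.add {p p' q q' : Multiset V} (h1 : Red Mov p p') (h2 : Red Mov q q') :
    Red Mov (p + q) (p' + q') := by
  refine (h1.add_right q).trans ?_
  rw [add_comm p' q, add_comm p' q']
  exact h2.add_right p'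

lemma Red.single_move {x y : V} {q : ℕ} (hq : 0 < q) (h : Mov x y q) :
    Red Mov (replicate q x) {y} := by
  apply Relation.ReflTransGen.single
  exact ⟨x, y, q, 0, hq, h, by simp, by simp⟩

lemma Red.split {p R : Multiset V} (h : Red Mov p R) :
    ∀ a b : Multiset V, R = a + b →
      ∃ p1 p2, p = p1 + p2 ∧ Red Mov p1 a ∧ Red Mov p2 b := by
  classical
  induction h with
  | refl => intro a b hab; exact ⟨a, b, hab, Red.refl _, Red.refl _⟩
  | @tail R' R _ hbc ih =>
    intro a b hab
    obtain ⟨x, y, q, t, hq, hm, h1, h2⟩ := hbc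
    have hy : y ∈ a + b := by rw [← hab, h2]; exact mem_cons_self y t
    rw [Multiset.mem_add] at hy
    rcases hy with hy | hy
    · obtain ⟨a', rfl⟩ := Multiset.exists_cons_of_mem hy
      have ht : t = a' + b := by
        rw [h2, cons_add] at hab
        exact (Multiset.cons_inj_right y).mp hab
      obtain ⟨p1, p2, e, r1, r2⟩ := ih (replicate q x + a') b (by rw [h1, ht, add_assoc])
      exact ⟨p1, p2, e, Relation.ReflTransGen.tail r1 ⟨x, y, q, a', hq, hm, rfl, rfl⟩, r2⟩
    · obtain ⟨b', rfl⟩ := Multiset.exists_cons_of_mem hy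
      have ht : t = a + b' := by
        rw [h2, Multiset.add_cons] at hab
        exact (Multiset.cons_inj_right y).mp hab
      obtain ⟨p1, p2, e, r1, r2⟩ := ih a (replicate q x + b') (by rw [h1, ht]; abel)
      exact ⟨p1, p2, e, r1, Relation.ReflTransGen.tail r2 ⟨x, y, q, b', hq, hm, rfl, rfl⟩⟩

lemma Kp.mono {x : V} {k : ℕ} {p p' : Multiset V} (hle : p ≤ p') (h : Kp Mov x k p) :
    Kp Mov x k p' := by
  obtain ⟨s, rfl⟩ := Multiset.le_iff_exists_add.mp hle
  obtain ⟨t, ht⟩ := h
  exact ⟨t + s, by rw [← add_assoc]; exact ht.add_right s⟩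

lemma Kp.add {x : V} {k k' : ℕ} {p p' : Multiset V} (h : Kp Mov x k p) (h' : Kp Mov x k' p') :
    Kp Mov x (k + k') (p + p') := by
  obtain ⟨t, ht⟩ := h
  obtain ⟨t', ht'⟩ := h'
  refine ⟨t + t', ?_⟩
  have := ht.add ht'
  rw [Multiset.replicate_add]
  convert this using 1
  abel

lemma Kp.of_red {x : V} {k : ℕ} {p p' : Multiset V} (hr : Red Mov p p') (h : Kp Mov x k p') :
    Kp Mov x k p := by
  obtain ⟨t, ht⟩ := h
  exact ⟨t, hr.trans ht⟩

lemma Kp.le {x : V} {k k' : ℕ} {p : Multiset V} (hk : k' ≤ k) (h : Kp Mov x k p) :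
    Kp Mov x k' p := by
  obtain ⟨t, ht⟩ := h
  obtain ⟨d, rfl⟩ := Nat.exists_eq_add_of_le hk
  exact ⟨replicate d x + t, by rw [Multiset.replicate_add, add_assoc] at ht; exact ht⟩

lemma Kp.self {x : V} {k : ℕ} {p : Multiset V} (h : replicate k x ≤ p) : Kp Mov x k p := by
  obtain ⟨s, rfl⟩ := Multiset.le_iff_exists_add.mp h
  exact ⟨s, Red.refl _⟩

lemma Red.replicate_move {x y : V} {q : ℕ} (hq : 0 < q) (h : Mov x y q) (k : ℕ) :
    Red Mov (replicate (q * k) x) (replicate k y) := by
  induction k with
  | zero => simpa using Red.refl _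
  | succ k ih =>
    rw [Nat.mul_succ, Multiset.replicate_add, Multiset.replicate_add]
    exact ih.add (Red.single_move hq h)

lemma Kp.step {x y : V} {q k : ℕ} {p : Multiset V} (hq : 0 < q) (hm : Mov x y q)
    (h : Kp Mov x (q * k) p) : Kp Mov y k p := by
  obtain ⟨t, ht⟩ := h
  exact ⟨t, ht.trans ((Red.replicate_move hq hm k).add_right t)⟩

/-- transfer along a map -/
lemma Red.map {W : Type*} {MovW : W → W → ℕ → Prop} (φ : V → W) (Good : V → Prop)
    (hG : ∀ x y q, 0 < q → Mov x y q → Good x → Good y)
    (hφ : ∀ x y q, 0 < q → Mov x y q → Good x → MovW (φ x) (φ y) q)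
    {p p' : Multiset V} (h : Red Mov p p') (hp : ∀ x ∈ p, Good x) :
    Red MovW (p.map φ) (p'.map φ) ∧ ∀ x ∈ p', Good x := by
  induction h with
  | refl => exact ⟨Red.refl _, hp⟩
  | tail _ hbc ih =>
    obtain ⟨x, y, q, t, hq, hm, h1, h2⟩ := hbc
    obtain ⟨ih1, ih2⟩ := ih
    have hx : Good x := by
      apply ih2
      rw [h1, Multiset.mem_add]
      left
      exact Multiset.mem_replicate.mpr ⟨by omega, rfl⟩
    refine ⟨Relation.ReflTransGen.tail ih1 ⟨φ x, φ y, q, t.map φ, hq, hφ x y q hq hm hx, ?_, ?_⟩, ?_⟩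
    · rw [h1, Multiset.map_add, Multiset.map_replicate]
    · rw [h2, Multiset.map_cons]
    · intro z hz
      rw [h2, Multiset.mem_cons] at hz
      rcases hz with rfl | hz
      · exact hG x z q hq hm hx
      · apply ih2
        rw [h1, Multiset.mem_add]
        right; exact hz

lemma Kp.map {W : Type*} {MovW : W → W → ℕ → Prop} (φ : V → W) (Good : V → Prop)
    (hG : ∀ x y q, 0 < q → Mov x y q → Good x → Good y)
    (hφ : ∀ x y q, 0 < q → Mov x y q → Good x → MovW (φ x) (φ y) q)
    {p : Multiset V} {x : V} {k : ℕ} (h : Kp Mov x k p) (hp : ∀ x ∈ p, Good x) :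
    Kp MovW (φ x) k (p.map φ) := by
  obtain ⟨t, ht⟩ := h
  have := (ht.map φ Good hG hφ hp).1
  rw [Multiset.map_add, Multiset.map_replicate] at this
  exact ⟨t.map φ, this⟩

end basic

section weight
variable {V : Type*} {Mov : V → V → ℕ → Prop} (c : V → ℕ)

/-- total weight -/
def wt (p : Multiset V) : ℚ := (p.map (fun x => (1 : ℚ) / (c x))).sum

variable (hc : ∀ x y q, 0 < q → Mov x y q → c x = q * c y)

include hc in
lemma Red.wt_eq {p p' : Multiset V} (h : Red Mov p p') : wt c p = wt c p' := by
  induction h with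
  | refl => rfl
  | tail _ hbc ih =>
    rw [ih]
    obtain ⟨x, y, q, t, hq, hm, h1, h2⟩ := hbc
    rw [h1, h2]
    simp only [wt, Multiset.map_add, Multiset.map_replicate, Multiset.sum_add,
      Multiset.sum_replicate, Multiset.map_cons, Multiset.sum_cons, nsmul_eq_mul]
    congr 1
    have := hc x y q hq hm
    rw [this]
    push_cast
    have hq' : (q : ℚ) ≠ 0 := by exact_mod_cast hq.ne'
    by_cases hy : (c y : ℚ) = 0
    · rw [hy]; simp
    · field_simp

include hc in
lemma card_le_of_red {p : Multiset V} {bot : V} {M : ℕ} (hbot : c bot = 1)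
    (h : Red Mov p {bot}) (hM : ∀ x ∈ p, 0 < c x ∧ c x ≤ M) : card p ≤ M := by
  have h1 := Red.wt_eq c hc h
  have h2 : wt c ({bot} : Multiset V) = 1 := by simp [wt, hbot]
  rw [h2] at h1
  rcases Nat.eq_zero_or_pos M with rfl | hMpos
  · have : p = 0 := by
      rw [Multiset.eq_zero_iff_forall_notMem]
      intro x hx
      have := hM x hx
      omega
    rw [this]; simp
  have h3 : (card p : ℚ) * (1 / (M : ℚ)) ≤ wt c p := by
    have : (p.map (fun _ => (1 : ℚ) / (M : ℚ))).sum ≤ (p.map (fun x => (1 : ℚ) / (c x))).sum := by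
      apply Multiset.sum_map_le_sum_map
      intro x hx
      obtain ⟨h4, h5⟩ := hM x hx
      apply one_div_le_one_div_of_le
      · exact_mod_cast h4
      · exact_mod_cast h5
    rw [Multiset.map_const', Multiset.sum_replicate, nsmul_eq_mul] at this
    exact this
  rw [h1] at h3
  have hMq : (0 : ℚ) < M := by exact_mod_cast hMpos
  rw [mul_one_div, div_le_one hMq] at h3
  exact_mod_cast h3

include hc in
lemma one_extract {p : Multiset V} {bot : V} {M : ℕ} (hbot : c bot = 1)
    (h : Kp Mov bot 1 p) (hM : ∀ x ∈ p, 0 < c x ∧ c x ≤ M) :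
    ∃ p1 p2, p = p1 + p2 ∧ card p1 ≤ M ∧ Kp Mov bot 1 p1 := by
  obtain ⟨t, ht⟩ := h
  obtain ⟨p1, p2, e, r1, r2⟩ := ht.split (replicate 1 bot) t rfl
  refine ⟨p1, p2, e, ?_, ⟨0, by simpa using r1⟩⟩
  apply card_le_of_red c hc hbot (by simpa using r1)
  intro x hx
  exact hM x (by rw [e]; exact Multiset.mem_add.mpr (Or.inl hx))

include hc in
lemma extract {bot : V} {M n : ℕ} (hbot : c bot = 1) (Good : V → Prop)
    (hA : ∀ p : Multiset V, (∀ x ∈ p, Good x) → n ≤ card p → Kp Mov bot 1 p)
    (hM : ∀ x, Good x → 0 < c x ∧ c x ≤ M) (k : ℕ) :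
    ∀ p : Multiset V, (∀ x ∈ p, Good x) → n + k * M ≤ card p → Kp Mov bot (k + 1) p := by
  induction k with
  | zero => intro p hp hn; exact hA p hp (by omega)
  | succ k ih =>
    intro p hp hn
    have h1 := hA p hp (by nlinarith)
    obtain ⟨p1, p2, e, hc1, hk1⟩ := one_extract c hc hbot h1 (fun x hx => hM x (hp x hx))
    have hcard : card p = card p1 + card p2 := by rw [e, Multiset.card_add]
    have h2 := ih p2 (fun x hx => hp x (by rw [e]; exact Multiset.mem_add.mpr (Or.inr hx)))
      (by rw [hcard] at hn; have : (k + 1) * M = k * M + M := by ring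
          omega)
    rw [e, add_comm p1 p2]
    exact h2.add hk1

include hc in
/-- from the 2-pebbling property to the k-pebbling property -/
lemma starstar [DecidableEq V] {bot : V} {n : ℕ} (hbot : c bot = 1) (Good : V → Prop)
    (hA : ∀ p : Multiset V, (∀ x ∈ p, Good x) → n ≤ card p → Kp Mov bot 1 p)
    (hB : ∀ p : Multiset V, (∀ x ∈ p, Good x) → 2 * n < card p + p.toFinset.card →
      Kp Mov bot 2 p)
    (hM : ∀ x, Good x → 0 < c x ∧ c x ≤ n)
    (hs : ∀ p : Multiset V, (∀ x ∈ p, Good x) → p.toFinset.card ≤ n) (k : ℕ) :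
    ∀ p : Multiset V, (∀ x ∈ p, Good x) → (k + 2) * n < card p + p.toFinset.card →
      Kp Mov bot (k + 2) p := by
  induction k with
  | zero => intro p hp hn; exact hB p hp (by omega)
  | succ k ih =>
    intro p hp hn
    have hsn := hs p hp
    have hdle : p.dedup ≤ p := Multiset.dedup_le p
    obtain ⟨p', e'⟩ := Multiset.le_iff_exists_add.mp hdle
    have hdc : card p.dedup = p.toFinset.card := rfl
    have hcard' : card p = p.toFinset.card + card p' := by
      rw [← hdc, ← Multiset.card_add, ← e']
    have hgood' : ∀ x ∈ p', Good x := fun x hx => hp x (by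
      rw [e']; exact Multiset.mem_add.mpr (Or.inr hx))
    have h1 := hA p' hgood' (by
      have : (k + 1 + 2) * n = k * n + 3 * n := by ring
      have : 0 ≤ k * n := Nat.zero_le _
      omega)
    obtain ⟨p1, p2, e, hc1, hk1⟩ := one_extract c hc hbot h1 (fun x hx => hM x (hgood' x hx))
    have hcard2 : card p' = card p1 + card p2 := by rw [e, Multiset.card_add]
    have hp_eq : p = (p.dedup + p2) + p1 := by
      conv_lhs => rw [e', e]
      abel
    have hgood2 : ∀ x ∈ p.dedup + p2, Good x := fun x hx => hp x (by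
      rw [hp_eq]; exact Multiset.mem_add.mpr (Or.inl hx))
    have hfin : (p.dedup + p2).toFinset = p.toFinset := by
      ext x
      rw [Multiset.mem_toFinset, Multiset.mem_toFinset, Multiset.mem_add, Multiset.mem_dedup]
      constructor
      · rintro (h | h)
        · exact h
        · rw [e', e]; exact Multiset.mem_add.mpr (Or.inr (Multiset.mem_add.mpr (Or.inr h)))
      · intro h; exact Or.inl h
    have h2 := ih (p.dedup + p2) hgood2 (by
      rw [hfin, Multiset.card_add, hdc]
      have : (k + 1 + 2) * n = (k + 2) * n + n := by ring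
      omega)
    rw [hp_eq]
    exact h2.add hk1

end weight

section push
variable {V : Type*} [DecidableEq V] {Mov : V → V → ℕ → Prop}

lemma exists_count_of_card {p : Multiset V} {r : ℕ} (h : r * p.toFinset.card < card p) :
    ∃ x ∈ p, r < p.count x := by
  by_contra hcon
  push Not at hcon
  have h1 : card p = ∑ x ∈ p.toFinset, p.count x := (Multiset.toFinset_sum_count_eq p).symm
  have h2 : ∑ x ∈ p.toFinset, p.count x ≤ ∑ x ∈ p.toFinset, r := by
    apply Finset.sum_le_sum
    intro x hx
    exact hcon x (Multiset.mem_toFinset.mp hx)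
  rw [Finset.sum_const, smul_eq_mul, mul_comm] at h2
  omega

lemma push_all (f : V → V) {r : ℕ} (hr : 1 ≤ r) (n : ℕ) :
    ∀ p : Multiset V, card p = n → (∀ x ∈ p, Mov x (f x) r) →
      ∃ q1 t, Red Mov p (q1 + t) ∧ (∀ y ∈ q1, ∃ x ∈ p, y = f x) ∧
        card p ≤ r * card q1 + (r - 1) * p.toFinset.card := by
  induction n using Nat.strong_induction_on with
  | _ n ih =>
    intro p hn hf
    by_cases h : (r - 1) * p.toFinset.card < card p
    · obtain ⟨x, hx, hcount⟩ := exists_count_of_card h
      have hle : replicate r x ≤ p := Multiset.le_count_iff_replicate_le.mp (by omega)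
      obtain ⟨p2, e⟩ := Multiset.le_iff_exists_add.mp hle
      have hcard : card p = r + card p2 := by rw [e, Multiset.card_add, Multiset.card_replicate]
      have hsub : ∀ y ∈ p2, y ∈ p := fun y hy => by
        rw [e]; exact Multiset.mem_add.mpr (Or.inr hy)
      obtain ⟨q1, t, h1, h2, h3⟩ := ih (card p2) (by omega) p2 rfl (fun y hy => hf y (hsub y hy))
      refine ⟨f x ::ₘ q1, t, ?_, ?_, ?_⟩
      · have e1 : Red Mov p ({f x} + (q1 + t)) := by
          conv_lhs => rw [e]
          exact (Red.single_move (by omega) (hf x hx)).add h1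
        have e2 : ({f x} + (q1 + t) : Multiset V) = (f x ::ₘ q1) + t := by
          rw [← Multiset.singleton_add (f x) q1]; abel
        rw [e2] at e1; exact e1
      · intro y hy
        rw [Multiset.mem_cons] at hy
        rcases hy with rfl | hy
        · exact ⟨x, hx, rfl⟩
        · obtain ⟨z, hz, hyz⟩ := h2 y hy
          exact ⟨z, hsub z hz, hyz⟩
      · have hs : p2.toFinset.card ≤ p.toFinset.card := by
          apply Finset.card_le_card
          intro y hy
          rw [Multiset.mem_toFinset] at hy ⊢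
          exact hsub y hy
        have := Nat.mul_le_mul_left (r - 1) hs
        rw [Multiset.card_cons, Nat.mul_succ]
        omega
    · exact ⟨0, p, by simpa using Red.refl _, by simp, by simp; omega⟩

lemma push_keep (f : V → V) {r : ℕ} (hr : 1 ≤ r) (t : ℕ) :
    ∀ p : Multiset V, (∀ x ∈ p, Mov x (f x) r) →
      (t = 0 ∨ r * (t - 1) + r * p.toFinset.card < card p) →
      ∃ q1 p', Red Mov p (q1 + p') ∧ card q1 = t ∧ (∀ y ∈ q1, ∃ x ∈ p, y = f x) ∧
        p' ≤ p ∧ card p' + r * t = card p ∧ p'.toFinset = p.toFinset := by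
  induction t with
  | zero =>
    intro p _ _
    exact ⟨0, p, by simpa using Red.refl _, by simp, by simp, le_rfl, by simp, rfl⟩
  | succ t ih =>
    intro p hf hcard
    have hcard : r * t + r * p.toFinset.card < card p := by
      rcases hcard with h | h
      · omega
      · simpa using h
    obtain ⟨x, hx, hcount⟩ := exists_count_of_card (p := p) (r := r) (by omega)
    have hle : replicate r x ≤ p := Multiset.le_count_iff_replicate_le.mp (by omega)
    obtain ⟨p2, e⟩ := Multiset.le_iff_exists_add.mp hle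
    have hc : card p = r + card p2 := by rw [e, Multiset.card_add, Multiset.card_replicate]
    have hsub : ∀ y ∈ p2, y ∈ p := fun y hy => by
      rw [e]; exact Multiset.mem_add.mpr (Or.inr hy)
    have hfin : p2.toFinset = p.toFinset := by
      ext y
      rw [Multiset.mem_toFinset, Multiset.mem_toFinset]
      refine ⟨hsub y, fun hy => ?_⟩
      by_cases hyx : y = x
      · subst hyx
        have : p.count y = r + p2.count y := by
          conv_lhs => rw [e]
          rw [Multiset.count_add, Multiset.count_replicate_self]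
        rw [← Multiset.count_pos]
        omega
      · rw [e, Multiset.mem_add] at hy
        rcases hy with hy | hy
        · exact absurd (Multiset.eq_of_mem_replicate hy) hyx
        · exact hy
    obtain ⟨q1, p', h1, h2, h3, h4, h5, h6⟩ := ih p2 (fun y hy => hf y (hsub y hy)) (by
      rcases Nat.eq_zero_or_pos t with h0 | hpos
      · left; exact h0
      · right
        rw [hfin]
        have : r * t = r * (t - 1) + r := by
          obtain ⟨u, rfl⟩ := Nat.exists_eq_succ_of_ne_zero hpos.ne'
          simp [Nat.mul_succ]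
        omega)
    refine ⟨f x ::ₘ q1, p', ?_, ?_, ?_, ?_, ?_, ?_⟩
    · have e1 : Red Mov p ({f x} + (q1 + p')) := by
        conv_lhs => rw [e]
        exact (Red.single_move (by omega) (hf x hx)).add h1
      have e2 : ({f x} + (q1 + p') : Multiset V) = (f x ::ₘ q1) + p' := by
        rw [← Multiset.singleton_add (f x) q1]; abel
      rw [e2] at e1; exact e1
    · rw [Multiset.card_cons, h2]
    · intro y hy
      rw [Multiset.mem_cons] at hy
      rcases hy with rfl | hy
      · exact ⟨x, hx, rfl⟩
      · obtain ⟨z, hz, hyz⟩ := h3 y hy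
        exact ⟨z, hsub z hz, hyz⟩
    · refine h4.trans ?_
      rw [e]; exact Multiset.le_add_left _ _
    · rw [Nat.mul_succ]; omega
    · rw [h6, hfin]

/-- the level lemma -/
lemma level (p0 p1 : Multiset V) (f : V → V) {r : ℕ} (hr : 2 ≤ r) (hf : ∀ x ∈ p1, Mov x (f x) r)
    (bot : V) (N' κ' : ℕ)
    (hA0 : ∀ q : Multiset V, (∀ y ∈ q, ∃ x ∈ p1, y = f x) → N' ≤ card (p0 + q) →
      Kp Mov bot 1 (p0 + q))
    (hTop : r * κ' < card p1 + p1.toFinset.card → Kp Mov bot 1 p1)
    (hcard : N' + (r - 1) * κ' ≤ card p0 + card p1) : Kp Mov bot 1 (p0 + p1) := by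
  by_cases htop : r * κ' < card p1 + p1.toFinset.card
  · exact (hTop htop).mono (Multiset.le_add_left _ _)
  · obtain ⟨q1, t, h1, h2, h3⟩ := push_all f (by omega) (card p1) p1 rfl hf
    have hN : N' ≤ card (p0 + q1) := by
      by_contra hlt
      rw [Multiset.card_add] at hlt
      obtain ⟨s, rfl⟩ : ∃ s, r = s + 2 := ⟨r - 2, by omega⟩
      have e1 : s + 2 - 1 = s + 1 := by omega
      rw [e1] at h3 hcard
      nlinarith
    have h4 := hA0 q1 h2 hN
    have h5 : Red Mov (p0 + p1) ((p0 + q1) + t) := by
      have := (Red.refl p0).add h1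
      rwa [← add_assoc] at this
    exact Kp.of_red h5 (h4.mono (Multiset.le_add_right _ _))

end push

end Pool.Agent.Results.MP_94c9ac_al.Q1AllGroups.Peb

namespace Pool.Agent.Results.MP_94c9ac_al.Q1AllGroups.Num

open Multiset Pool.Agent.Results.MP_94c9ac_al.Q1AllGroups.Peb

/-- numeric moves -/
def MovN (d d' q : ℕ) : Prop := d = q * d'

lemma two_mul_divisors (m : ℕ) (hm : 0 < m) : 2 * m.divisors.card ≤ m + 2 := by
  have h : m.divisors ⊆ insert m (Finset.Icc 1 (m / 2)) := by
    intro d hd
    rw [Nat.mem_divisors] at hd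
    obtain ⟨⟨k, hk⟩, -⟩ := hd
    rw [Finset.mem_insert, Finset.mem_Icc]
    rcases Nat.lt_or_ge k 2 with h2 | h2
    · left
      interval_cases k
      · omega
      · omega
    · right
      have hd0 : 0 < d := Nat.pos_of_ne_zero (by rintro rfl; simp at hk; omega)
      refine ⟨hd0, ?_⟩
      rw [Nat.le_div_iff_mul_le (by norm_num)]
      nlinarith
  have h1 := Finset.card_le_card h
  have h2 := Finset.card_insert_le m (Finset.Icc 1 (m / 2))
  rw [Nat.card_Icc] at h2
  omega

lemma toFinset_le_divisors {m : ℕ} (hm : 0 < m) (p : Multiset ℕ) (hp : ∀ d ∈ p, d ∣ m) :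
    p.toFinset.card ≤ m.divisors.card := by
  apply Finset.card_le_card
  intro d hd
  rw [Multiset.mem_toFinset] at hd
  exact Nat.mem_divisors.mpr ⟨hp d hd, by omega⟩

lemma divisors_le (m : ℕ) : m.divisors.card ≤ m := Nat.card_divisors_le_self m

/-- property A -/
def PA (M : ℕ) : Prop := ∀ p : Multiset ℕ, (∀ d ∈ p, d ∣ M) → M ≤ card p → Kp MovN 1 1 p
/-- property B -/
def PB (M : ℕ) : Prop := ∀ p : Multiset ℕ, (∀ d ∈ p, d ∣ M) →
  2 * M < card p + p.toFinset.card → Kp MovN 1 2 p

lemma starN {m : ℕ} (hm : 0 < m) (hA : PA m) (hB : PB m) (k : ℕ) (hk : 2 ≤ k) (p : Multiset ℕ)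
    (hp : ∀ d ∈ p, d ∣ m) (h : k * m < card p + p.toFinset.card) : Kp MovN 1 k p := by
  obtain ⟨k, rfl⟩ := Nat.exists_eq_add_of_le hk
  rw [add_comm 2 k] at h ⊢
  apply starstar (Mov := MovN) (fun d => d) (by intro x y q _ h; exact h) rfl (fun d => d ∣ m)
    hA hB ?_ ?_ k p hp h
  · intro x hx
    exact ⟨Nat.pos_of_dvd_of_pos hx hm, Nat.le_of_dvd hm hx⟩
  · intro p hp
    exact (toFinset_le_divisors hm p hp).trans (divisors_le m)

lemma Kp_mul {c k x : ℕ} {p : Multiset ℕ} (h : Kp MovN x k p) :
    Kp MovN (c * x) k (p.map (fun d => c * d)) := by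
  apply h.map (fun d => c * d) (fun _ => True)
  · intros; trivial
  · intro x y q _ h _
    simp only [MovN] at h ⊢
    rw [h]; ring
  · intros; trivial

lemma arith1 (r N' : ℕ) (hr : 2 ≤ r) : N' + (r - 1) * N' = r * N' := by
  obtain ⟨s, rfl⟩ : ∃ s, r = s + 1 := ⟨r - 1, by omega⟩
  simp; ring

lemma arith2 (r N' M m m0 c1 s0 s1 : ℕ) (hr : 2 ≤ r) (hM : M = r * N') (hm0 : m0 < N')
    (hs0 : s0 ≤ m0) (htot : 2 * M < m0 + c1 + (s0 + s1)) (hs1 : 2 * s1 ≤ m + 2)
    (hrm : r * m ≤ M) (hm : 1 ≤ m) : r * (N' - m0 - 1) + r * s1 < c1 := by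
  by_contra hlt
  obtain ⟨a, rfl⟩ : ∃ a, N' = a + m0 + 1 := ⟨N' - m0 - 1, by omega⟩
  have e : a + m0 + 1 - m0 - 1 = a := by omega
  rw [e] at hlt
  have e2 : M = r * a + r * m0 + r := by rw [hM]; ring
  have h1 : 2 * (r * s1) ≤ r * m + 2 * r := by
    have := Nat.mul_le_mul_left r hs1
    have e3 : r * (2 * s1) = 2 * (r * s1) := by ring
    have e4 : r * (m + 2) = r * m + 2 * r := by ring
    omega
  have h2 : 2 * m0 ≤ r * m0 := Nat.mul_le_mul_right _ hr
  have h3 : 2 * m ≤ r * m := Nat.mul_le_mul_right _ hr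
  have h4 : r ≤ r * m := Nat.le_mul_of_pos_right _ hm
  generalize r * s1 = rs at *
  generalize r * m0 = rm0 at *
  generalize r * m = rm at *
  generalize r * a = ra at *
  omega

set_option maxHeartbeats 1000000 in
lemma num (M : ℕ) : 0 < M → PA M ∧ PB M := by
  induction M using Nat.strong_induction_on with
  | _ M ih =>
    intro hM
    rcases Nat.lt_or_ge M 2 with h1 | h1
    · have : M = 1 := by omega
      subst this
      refine ⟨?_, ?_⟩
      · intro p hp hc
        apply Kp.self
        rw [← Multiset.le_count_iff_replicate_le]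
        have : p = replicate (card p) 1 :=
          Multiset.eq_replicate_card.mpr (fun d hd => Nat.dvd_one.mp (hp d hd))
        rw [this, Multiset.count_replicate_self]; exact hc
      · intro p hp hc
        apply Kp.self
        rw [← Multiset.le_count_iff_replicate_le]
        have : p = replicate (card p) 1 :=
          Multiset.eq_replicate_card.mpr (fun d hd => Nat.dvd_one.mp (hp d hd))
        have hs := (toFinset_le_divisors (by norm_num) p hp)
        simp at hs
        rw [this, Multiset.count_replicate_self]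
        omega
    · -- M ≥ 2
      set r := M.minFac with hr
      have hrp : r.Prime := Nat.minFac_prime (by omega)
      have hrM : r ∣ M := Nat.minFac_dvd M
      obtain ⟨E, m, hrm, hMe⟩ := Nat.exists_eq_pow_mul_and_not_dvd (n := M) (by omega) r hrp.ne_one
      have hE : 1 ≤ E := by
        by_contra h0
        have : E = 0 := by omega
        subst this
        simp at hMe
        exact hrm (hMe ▸ hrM)
      have hm : 0 < m := Nat.pos_of_ne_zero (by rintro rfl; simp at hMe; omega)
      have hr2 : 2 ≤ r := hrp.two_le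
      obtain ⟨N', hN'⟩ : ∃ N', M = r * N' := hrM
      have hN'0 : 0 < N' := Nat.pos_of_ne_zero (by rintro rfl; simp at hN'; omega)
      have hN'lt : N' < M := by rw [hN']; nlinarith
      have hK2 : 2 ≤ r ^ E := by
        calc 2 ≤ r := hr2
          _ = r ^ 1 := (pow_one r).symm
          _ ≤ r ^ E := Nat.pow_le_pow_right (by omega) hE
      have hmlt : m < M := by rw [hMe]; nlinarith
      obtain ⟨hA', hB'⟩ := ih N' hN'lt hN'0
      obtain ⟨hAm, hBm⟩ := ih m hmlt hm
      -- structure of top nodes
      have htop : ∀ d, d ∣ M → ¬ d ∣ N' → ∃ d', d' ∣ m ∧ d = r ^ E * d' := by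
        intro d hd hnd
        obtain ⟨k, hk⟩ := hd
        -- r does not divide k
        have hrk : ¬ r ∣ k := by
          rintro ⟨k', rfl⟩
          apply hnd
          refine ⟨k', ?_⟩
          have : r * N' = r * (d * k') := by rw [← hN', hk]; ring
          exact Nat.eq_of_mul_eq_mul_left (by omega) this
        have hcop : Nat.Coprime (r ^ E) k :=
          Nat.Coprime.pow_left E ((Nat.Prime.coprime_iff_not_dvd hrp).mpr hrk)
        have hdvd : r ^ E ∣ d := by
          apply hcop.dvd_of_dvd_mul_right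
          rw [← hk, hMe]
          exact Nat.dvd_mul_right _ _
        obtain ⟨d', rfl⟩ := hdvd
        refine ⟨d', ?_, rfl⟩
        refine ⟨k, ?_⟩
        have : r ^ E * m = r ^ E * (d' * k) := by rw [← hMe, hk]; ring
        exact Nat.eq_of_mul_eq_mul_left (by omega) this
      have hEs : r ^ E = r * r ^ (E - 1) := by
        obtain ⟨e, rfl⟩ := Nat.exists_eq_succ_of_ne_zero (show E ≠ 0 by omega)
        simp [pow_succ]; ring
      have hN'm : N' = r ^ (E - 1) * m := by
        have : r * N' = r * (r ^ (E - 1) * m) := by rw [← hN', hMe, hEs]; ring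
        exact Nat.eq_of_mul_eq_mul_left (by omega) this
      -- handling top pebbles
      have hKtop : ∀ p1 : Multiset ℕ, (∀ d ∈ p1, d ∣ M ∧ ¬ d ∣ N') →
          (M < card p1 + p1.toFinset.card → Kp MovN 1 1 p1) ∧
          2 * p1.toFinset.card ≤ m + 2 := by
        intro p1 hp1
        set P := p1.map (fun d => d / r ^ E) with hP
        have hPd : ∀ d ∈ P, d ∣ m := by
          intro d hd
          rw [hP, Multiset.mem_map] at hd
          obtain ⟨x, hx, rfl⟩ := hd
          obtain ⟨d', hd', rfl⟩ := htop x (hp1 x hx).1 (hp1 x hx).2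
          rw [Nat.mul_div_cancel_left _ (by omega)]
          exact hd'
        have hPm : P.map (fun d => r ^ E * d) = p1 := by
          rw [hP, Multiset.map_map]
          conv_rhs => rw [← Multiset.map_id p1]
          apply Multiset.map_congr rfl
          intro x hx
          obtain ⟨d', hd', rfl⟩ := htop x (hp1 x hx).1 (hp1 x hx).2
          simp only [Function.comp_apply, id]
          rw [Nat.mul_div_cancel_left _ (by omega)]
        have hcardP : card P = card p1 := by rw [hP, Multiset.card_map]
        have hsP : p1.toFinset.card ≤ P.toFinset.card := by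
          conv_lhs => rw [← hPm]
          rw [Multiset.toFinset_map]
          exact Finset.card_image_le
        refine ⟨?_, ?_⟩
        · intro h
          have h2 : Kp MovN 1 (r ^ E) P := starN hm hAm hBm (r ^ E) hK2 P hPd (by
            rw [← hMe]; omega)
          have h3 := Kp_mul (c := r ^ E) h2
          rw [hPm] at h3
          apply Kp.step (q := r ^ E) (k := 1) (by omega) (show MovN (r ^ E * 1) 1 (r ^ E) from rfl)
          simpa using h3
        · have h4 := toFinset_le_divisors hm P hPd
          have h5 := two_mul_divisors m hm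
          omega
      -- the push map
      have hf : ∀ d, d ∣ M → ¬ d ∣ N' → MovN d (d / r) r ∧ d / r ∣ N' := by
        intro d hd hnd
        obtain ⟨d', hd', rfl⟩ := htop d hd hnd
        have e : r ^ E * d' = r * (r ^ (E - 1) * d') := by rw [hEs]; ring
        have e2 : r ^ E * d' / r = r ^ (E - 1) * d' := by
          rw [e, Nat.mul_div_cancel_left _ (by omega)]
        rw [e2]
        refine ⟨e, ?_⟩
        rw [hN'm]
        exact Nat.mul_dvd_mul_left _ hd'
      refine ⟨?_, ?_⟩
      · -- property A
        intro p hp hc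
        set p0 := p.filter (fun d => d ∣ N') with hp0
        set p1 := p.filter (fun d => ¬ d ∣ N') with hp1
        have hpe : p0 + p1 = p := Multiset.filter_add_not _ p
        have h1m : ∀ d ∈ p1, d ∣ M ∧ ¬ d ∣ N' := by
          intro d hd
          rw [hp1, Multiset.mem_filter] at hd
          exact ⟨hp d hd.1, hd.2⟩
        rw [← hpe]
        apply level p0 p1 (fun d => d / r) hr2 (fun d hd => (hf d (h1m d hd).1 (h1m d hd).2).1) 1
          N' N'
        · intro q hq hc
          apply hA' _ _ hc
          intro d hd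
          rw [Multiset.mem_add] at hd
          rcases hd with hd | hd
          · rw [hp0, Multiset.mem_filter] at hd; exact hd.2
          · obtain ⟨x, hx, rfl⟩ := hq d hd
            exact (hf x (h1m x hx).1 (h1m x hx).2).2
        · intro h
          rw [← hN'] at h
          exact (hKtop p1 h1m).1 h
        · rw [← Multiset.card_add, hpe]
          rw [arith1 r N' hr2, ← hN']
          exact hc
      · -- property B
        intro p hp hc
        set p0 := p.filter (fun d => d ∣ N') with hp0
        set p1 := p.filter (fun d => ¬ d ∣ N') with hp1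
        have hpe : p0 + p1 = p := Multiset.filter_add_not _ p
        have h0m : ∀ d ∈ p0, d ∣ N' := by
          intro d hd
          rw [hp0, Multiset.mem_filter] at hd
          exact hd.2
        have h1m : ∀ d ∈ p1, d ∣ M ∧ ¬ d ∣ N' := by
          intro d hd
          rw [hp1, Multiset.mem_filter] at hd
          exact ⟨hp d hd.1, hd.2⟩
        have hcard : card p = card p0 + card p1 := by rw [← hpe, Multiset.card_add]
        have hs : p.toFinset.card ≤ p0.toFinset.card + p1.toFinset.card := by
          rw [← hpe, Multiset.toFinset_add]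
          exact Finset.card_union_le _ _
        have hs0 : p0.toFinset.card ≤ card p0 := Multiset.toFinset_card_le p0
        obtain ⟨hT1, hT2⟩ := hKtop p1 h1m
        rw [← hpe]
        by_cases htop1 : M < card p1 + p1.toFinset.card
        · by_cases hm0 : N' ≤ card p0
          · exact (hA' p0 h0m hm0).add (hT1 htop1)
          · -- push t = N' - card p0
            obtain ⟨q1, p', e1, e2, e3, e4, e5, e6⟩ := push_keep (Mov := MovN) (fun d => d / r)
              (show 1 ≤ r by omega) (N' - card p0) p1
              (fun d hd => (hf d (h1m d hd).1 (h1m d hd).2).1) (by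
                right
                have hMm : r * m ≤ M := by
                  rw [hMe, hEs]
                  have : 1 ≤ r ^ (E - 1) := Nat.one_le_pow _ _ (by omega)
                  nlinarith
                exact arith2 r N' M m (card p0) (card p1) p0.toFinset.card p1.toFinset.card hr2
                  hN' (by omega) hs0 (by omega) hT2 hMm hm)
            have hA1 := hA' (p0 + q1) (by
              intro d hd
              rw [Multiset.mem_add] at hd
              rcases hd with hd | hd
              · exact h0m d hd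
              · obtain ⟨x, hx, rfl⟩ := e3 d hd
                exact (hf x (h1m x hx).1 (h1m x hx).2).2) (by
              rw [Multiset.card_add, e2]; omega)
            have hp'm : ∀ d ∈ p', d ∣ M ∧ ¬ d ∣ N' := fun d hd => h1m d (Multiset.mem_of_le e4 hd)
            have hT' := (hKtop p' hp'm).1 (by
              rw [e6]
              have hr3 : r * (N' - card p0) + r * card p0 = M := by
                rw [hN', ← Nat.mul_add]
                congr 1; omega
              have : 2 * card p0 ≤ r * card p0 := Nat.mul_le_mul_right _ hr2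
              omega)
            have hred : Red MovN (p0 + p1) ((p0 + q1) + p') := by
              have := (Red.refl p0).add e1
              rwa [← add_assoc] at this
            exact Kp.of_red hred (hA1.add hT')
        · have h6 : 2 * N' < card p0 + p0.toFinset.card := by
            have : 2 * N' ≤ r * N' := Nat.mul_le_mul_right _ hr2
            omega
          exact (hB' p0 h0m h6).mono (Multiset.le_add_right _ _)

end Pool.Agent.Results.MP_94c9ac_al.Q1AllGroups.Num

namespace Pool.Agent.Results.MP_94c9ac_al.Q1AllGroups.Grp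

open Multiset Pool.Agent.Results.MP_94c9ac_al.Q1AllGroups.Peb Pool.Agent.Results.MP_94c9ac_al.Q1AllGroups.Num
open scoped Classical

variable {G : Type*} [Group G] [Fintype G]

/-- moves between subgroups -/
def MovG (x y : Subgroup G) (q : ℕ) : Prop := y ≤ x ∧ Nat.card x = q * Nat.card y

/-- all prime factors are below `N` -/
def PiNum (N m : ℕ) : Prop := ∀ p : ℕ, p.Prime → p ∣ m → p < N

/-- the elements of `H` of `N`-smooth order -/
noncomputable def piEl (N : ℕ) (H : Subgroup G) : Finset G :=
  Finset.univ.filter (fun h : G => h ∈ H ∧ PiNum N (orderOf h))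

/-- admissible nodes -/
def Valid (N : ℕ) (H : Subgroup G) (x : Subgroup G) : Prop :=
  x ≤ H ∧ IsCyclic x ∧ PiNum N (Nat.card x)

lemma PiNum.dvd {N m d : ℕ} (h : PiNum N m) (hd : d ∣ m) : PiNum N d :=
  fun p hp hpd => h p hp (hpd.trans hd)

lemma PiNum.mul {N m m' : ℕ} (h : PiNum N m) (h' : PiNum N m') : PiNum N (m * m') := by
  intro p hp hpd
  rcases (Nat.Prime.dvd_mul hp).mp hpd with h1 | h1
  · exact h p hp h1
  · exact h' p hp h1

omit [Fintype G] in
lemma exists_gen (x : Subgroup G) (hx : IsCyclic x) : ∃ g : G, x = Subgroup.zpowers g := by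
  obtain ⟨g, hg⟩ := (Subgroup.isCyclic_iff_exists_zpowers_eq_top x).mp hx
  exact ⟨g, hg.symm⟩

omit [Fintype G] in
lemma zpowers_cyclic (g : G) : IsCyclic (Subgroup.zpowers g) :=
  (Subgroup.isCyclic_iff_exists_zpowers_eq_top _).mpr ⟨g, rfl⟩

lemma card_pos' (x : Subgroup G) : 0 < Nat.card x := Nat.card_pos

lemma cyc_le_of_dvd {X x y : Subgroup G} (hX : IsCyclic X) (hx : x ≤ X) (hy : y ≤ X)
    (h : Nat.card x ∣ Nat.card y) : x ≤ y := by
  set n := Nat.card y with hn
  have hn0 : 0 < n := card_pos' y
  let S : Finset X := Finset.univ.filter (fun a : X => a ^ n = 1)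
  let T : Finset X := Finset.univ.filter (fun a : X => (a : G) ∈ y)
  have hS : S.card ≤ n := IsCyclic.card_pow_eq_one_le hn0
  have hT : T.card = n := by
    rw [hn, ← Nat.card_congr (Subgroup.subgroupOfEquivOfLe hy).toEquiv]
    rw [Nat.card_eq_fintype_card, Fintype.card_subtype]
    rfl
  have hTS : T ⊆ S := by
    intro a ha
    rw [Finset.mem_filter] at ha ⊢
    refine ⟨Finset.mem_univ _, ?_⟩
    apply Subtype.ext
    have h1 : orderOf (a : G) ∣ n := by
      have := orderOf_dvd_natCard (⟨(a : G), ha.2⟩ : y)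
      rwa [← Subgroup.orderOf_coe] at this
    simpa using orderOf_dvd_iff_pow_eq_one.mp h1
  have hEq : T = S := Finset.eq_of_subset_of_card_le hTS (by omega)
  intro g hg
  have : (⟨g, hx hg⟩ : X) ∈ S := by
    rw [Finset.mem_filter]
    refine ⟨Finset.mem_univ _, ?_⟩
    apply Subtype.ext
    have h1 : orderOf g ∣ Nat.card x := by
      have := orderOf_dvd_natCard (⟨g, hg⟩ : x)
      rwa [← Subgroup.orderOf_coe] at this
    simpa using orderOf_dvd_iff_pow_eq_one.mp (h1.trans h)
  rw [← hEq, Finset.mem_filter] at this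
  exact this.2

lemma exists_sub_of_dvd {X : Subgroup G} (hX : IsCyclic X) {d : ℕ} (hd : d ∣ Nat.card X) :
    ∃ y ≤ X, Nat.card y = d := by
  obtain ⟨g, rfl⟩ := exists_gen X hX
  rw [Nat.card_zpowers] at hd
  refine ⟨Subgroup.zpowers (g ^ (orderOf g / d)), ?_, ?_⟩
  · rw [Subgroup.zpowers_le]
    exact Subgroup.npow_mem_zpowers g _
  · rw [Nat.card_zpowers]
    exact orderOf_pow_orderOf_div (orderOf_pos g).ne' hd

omit [Fintype G] in
lemma Valid.sub {N : ℕ} {H x y : Subgroup G} (h : Valid N H x) (hy : y ≤ x) : Valid N H y := by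
  obtain ⟨h1, h2, h3⟩ := h
  have := h2
  exact ⟨hy.trans h1, Subgroup.isCyclic_of_le hy, h3.dvd (Subgroup.card_dvd_of_le hy)⟩

/-- k-pebbling for cyclic groups -/
lemma star_cyclic {X : Subgroup G} (hX : IsCyclic X) (k : ℕ) (hk : 2 ≤ k)
    (p : Multiset (Subgroup G)) (hp : ∀ x ∈ p, x ≤ X)
    (h : k * Nat.card X < card p + p.toFinset.card) : Kp MovG ⊥ k p := by
  set M := Nat.card X with hM
  have hM0 : 0 < M := card_pos' X
  have hex : ∀ d : ℕ, ∃ y : Subgroup G, d ∣ M → y ≤ X ∧ Nat.card y = d := by
    intro d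
    by_cases hd : d ∣ M
    · obtain ⟨y, hy⟩ := exists_sub_of_dvd hX hd
      exact ⟨y, fun _ => hy⟩
    · exact ⟨⊥, fun h => absurd h hd⟩
  choose φ hφ using hex
  set P : Multiset ℕ := p.map (fun x : Subgroup G => Nat.card x) with hP
  have hPd : ∀ d ∈ P, d ∣ M := by
    intro d hd
    rw [hP, Multiset.mem_map] at hd
    obtain ⟨x, hx, rfl⟩ := hd
    exact Subgroup.card_dvd_of_le (hp x hx)
  have hPm : P.map φ = p := by
    rw [hP, Multiset.map_map]
    conv_rhs => rw [← Multiset.map_id p]
    apply Multiset.map_congr rfl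
    intro x hx
    simp only [Function.comp_apply, id]
    have h1 := hφ (Nat.card x) (Subgroup.card_dvd_of_le (hp x hx))
    apply le_antisymm
    · exact cyc_le_of_dvd hX h1.1 (hp x hx) (by rw [h1.2])
    · exact cyc_le_of_dvd hX (hp x hx) h1.1 (by rw [h1.2])
  have hcard : card P = card p := by rw [hP, Multiset.card_map]
  have hs : p.toFinset.card ≤ P.toFinset.card := by
    conv_lhs => rw [← hPm]
    rw [Multiset.toFinset_map]
    exact Finset.card_image_le
  have h1 : Kp MovN 1 k P := starN hM0 (num M hM0).1 (num M hM0).2 k hk P hPd (by omega)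
  have h2 := h1.map (MovW := MovG) φ (fun d => d ∣ M) (by
      intro x y q _ h hx
      simp only [MovN] at h
      exact (Dvd.intro_left q h.symm).trans hx) (by
      intro x y q _ h hx
      simp only [MovN] at h
      have hyx : y ∣ x := Dvd.intro_left q h.symm
      have hx1 := hφ x hx
      have hy1 := hφ y (hyx.trans hx)
      refine ⟨cyc_le_of_dvd hX hy1.1 hx1.1 (by rw [hx1.2, hy1.2]; exact hyx), ?_⟩
      rw [hx1.2, hy1.2, h]) hPd
  rw [hPm] at h2
  have h3 : φ 1 = ⊥ := by
    have := (hφ 1 (one_dvd _)).2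
    exact Subgroup.card_eq_one.mp this
  rwa [h3] at h2

/-- the inductive statement -/
def SN (G : Type*) [Group G] [Fintype G] (N : ℕ) : Prop :=
  ∀ H : Subgroup G, ∀ p : Multiset (Subgroup G), (∀ x ∈ p, Valid N H x) →
    (piEl N H).card ≤ card p → Kp MovG ⊥ 1 p

lemma mem_piEl {N : ℕ} {H : Subgroup G} {g : G} : g ∈ piEl N H ↔ g ∈ H ∧ PiNum N (orderOf g) := by
  simp [piEl]

/-- elements of a subgroup as a finset -/
noncomputable def els (X : Subgroup G) : Finset G := Finset.univ.filter (fun g => g ∈ X)

lemma card_els (X : Subgroup G) : (els X).card = Nat.card X := by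
  rw [els, Nat.card_eq_fintype_card, Fintype.card_subtype]

lemma mem_els {X : Subgroup G} {g : G} : g ∈ els X ↔ g ∈ X := by simp [els]

omit [Fintype G] in
lemma orderOf_dvd_of_mem {X : Subgroup G} {g : G} (hg : g ∈ X) : orderOf g ∣ Nat.card X := by
  have := orderOf_dvd_natCard (⟨g, hg⟩ : X)
  rwa [← Subgroup.orderOf_coe] at this

/-- the counting lemma for smooth elements outside a cyclic subgroup of maximal order -/
lemma wide_count {N : ℕ} {L : Subgroup G} {z y : G} (hz : z ∈ piEl N L) (hy : y ∈ piEl N L)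
    (hyz : y ∉ Subgroup.zpowers z) : 3 * orderOf z ≤ 2 * (piEl N L).card := by
  set X := Subgroup.zpowers z with hX
  have hXc : Nat.card X = orderOf z := Nat.card_zpowers z
  have hzL := (mem_piEl.mp hz).1
  have hzP := (mem_piEl.mp hz).2
  have hXL : X ≤ L := by rw [hX, Subgroup.zpowers_le]; exact hzL
  have hXsub : els X ⊆ piEl N L := by
    intro g hg
    rw [mem_els] at hg
    rw [mem_piEl]
    refine ⟨hXL hg, hzP.dvd ?_⟩
    rw [← hXc]; exact orderOf_dvd_of_mem hg
  by_cases hnorm : ∀ g ∈ L, ∀ a ∈ X, g * a * g⁻¹ ∈ X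
  · -- coset
    have hpow : ∀ a ∈ X, ∀ k : ℕ, ∃ c ∈ X, (y * a) ^ k = y ^ k * c := by
      intro a ha k
      induction k with
      | zero => exact ⟨1, X.one_mem, by simp⟩
      | succ k ih =>
        obtain ⟨c, hc, e⟩ := ih
        refine ⟨(y⁻¹ * c * y) * a, X.mul_mem ?_ ha, ?_⟩
        · have := hnorm y⁻¹ (L.inv_mem (mem_piEl.mp hy).1) c hc
          simpa using this
        · rw [pow_succ, e, pow_succ]; group
    have hcos : (els X).image (fun a => y * a) ⊆ piEl N L := by
      intro g hg
      rw [Finset.mem_image] at hg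
      obtain ⟨a, ha, rfl⟩ := hg
      rw [mem_els] at ha
      rw [mem_piEl]
      refine ⟨L.mul_mem (mem_piEl.mp hy).1 (hXL ha), ?_⟩
      obtain ⟨c, hc, e⟩ := hpow a ha (orderOf y)
      rw [pow_orderOf_eq_one, one_mul] at e
      have h1 : (y * a) ^ (orderOf y * orderOf z) = 1 := by
        rw [pow_mul, e]
        apply orderOf_dvd_iff_pow_eq_one.mp
        rw [← hXc]; exact orderOf_dvd_of_mem hc
      exact ((mem_piEl.mp hy).2.mul hzP).dvd (orderOf_dvd_of_pow_eq_one h1)
    have hdisj : Disjoint (els X) ((els X).image (fun a => y * a)) := by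
      rw [Finset.disjoint_left]
      intro g hg hg2
      rw [Finset.mem_image] at hg2
      obtain ⟨a, ha, rfl⟩ := hg2
      rw [mem_els] at hg ha
      apply hyz
      have := X.mul_mem hg (X.inv_mem ha)
      simpa using this
    have hc1 : ((els X).image (fun a => y * a)).card = orderOf z := by
      rw [Finset.card_image_of_injective _ (mul_right_injective y), card_els, hXc]
    have hc2 := Finset.card_le_card (Finset.union_subset hXsub hcos)
    rw [Finset.card_union_of_disjoint hdisj, hc1, card_els, hXc] at hc2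
    omega
  · push Not at hnorm
    obtain ⟨g, hg, a, ha, hga⟩ := hnorm
    set X' : Subgroup G := X.map (MulAut.conj g).toMonoidHom with hX'
    have hX'c : Nat.card X' = orderOf z := by
      rw [← hXc]
      exact (Nat.card_congr (X.equivMapOfInjective _ (MulAut.conj g).injective).toEquiv).symm
    have hX'sub : els X' ⊆ piEl N L := by
      intro h hh
      rw [mem_els] at hh
      have hord := orderOf_dvd_of_mem hh
      rw [hX'c] at hord
      rw [mem_piEl]
      refine ⟨?_, hzP.dvd hord⟩
      rw [hX', Subgroup.mem_map] at hh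
      obtain ⟨b, hb, rfl⟩ := hh
      simp only [MulEquiv.coe_toMonoidHom, MulAut.conj_apply]
      exact L.mul_mem (L.mul_mem hg (hXL hb)) (L.inv_mem hg)
    -- intersection
    have hint : els X ∩ els X' = els (X ⊓ X') := by
      ext h; simp [mem_els]
    have hcint : 2 * Nat.card (X ⊓ X' : Subgroup G) ≤ orderOf z := by
      have hd : Nat.card (X ⊓ X' : Subgroup G) ∣ Nat.card X' := Subgroup.card_dvd_of_le inf_le_right
      rw [hX'c] at hd
      obtain ⟨k, hk⟩ := hd
      have hk0 : k ≠ 0 := by
        rintro rfl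
        have := orderOf_pos z
        omega
      have hk1 : k ≠ 1 := by
        rintro rfl
        rw [mul_one] at hk
        have : X ⊓ X' = X' := by
          apply Subgroup.eq_of_le_of_card_ge inf_le_right
          rw [hX'c, hk]
        have hle : X' ≤ X := by rw [← this]; exact inf_le_left
        apply hga
        apply hle
        rw [hX', Subgroup.mem_map]
        exact ⟨a, ha, by simp [MulAut.conj_apply]⟩
      have hk2 : 2 ≤ k := by omega
      rw [hk]
      nlinarith
    have hc2 := Finset.card_le_card (Finset.union_subset hXsub hX'sub)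
    have hc3 := Finset.card_union_add_card_inter (els X) (els X')
    rw [hint, card_els, card_els, card_els, hXc, hX'c] at hc3
    omega


lemma starG_arith (K n M c s : ℕ) (hK : 3 ≤ K) (hMn : 3 * M ≤ 2 * n) (hMn' : M ≤ n)
    (hs : 2 * s ≤ M + 2 + 2 * (n - M)) (h : K * n < c + s) : n + (K - 1) * M ≤ c := by
  obtain ⟨k, rfl⟩ : ∃ k, K = k + 3 := ⟨K - 3, by omega⟩
  obtain ⟨d, rfl⟩ : ∃ d, n = M + d := ⟨n - M, by omega⟩
  have e1 : (k + 3) * (M + d) = (k + 3 - 1) * M + M + (k * d + 3 * d) := by
    have : k + 3 - 1 = k + 2 := by omega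
    rw [this]; ring
  have e2 : 0 ≤ k * d := Nat.zero_le _
  omega

lemma starG {N : ℕ} (hS : SN G N) (L : Subgroup G) (K : ℕ) (hK : 2 ≤ K) (hKN : N ≤ K)
    (p : Multiset (Subgroup G)) (hp : ∀ x ∈ p, Valid N L x)
    (h : K * (piEl N L).card < card p + p.toFinset.card) : Kp MovG ⊥ K p := by
  have hne : (piEl N L).Nonempty := by
    refine ⟨1, mem_piEl.mpr ⟨L.one_mem, ?_⟩⟩
    intro q hq hq1
    rw [orderOf_one] at hq1
    exact absurd (Nat.dvd_one.mp hq1) hq.ne_one
  obtain ⟨z, hz, hmax⟩ := Finset.exists_max_image (piEl N L) (fun g => orderOf g) hne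
  set X := Subgroup.zpowers z with hX
  have hXc : Nat.card X = orderOf z := Nat.card_zpowers z
  have hzL := (mem_piEl.mp hz).1
  have hzP := (mem_piEl.mp hz).2
  have hXL : X ≤ L := by rw [hX, Subgroup.zpowers_le]; exact hzL
  have hXsub : els X ⊆ piEl N L := by
    intro g hg
    rw [mem_els] at hg
    rw [mem_piEl]
    refine ⟨hXL hg, hzP.dvd ?_⟩
    rw [← hXc]; exact orderOf_dvd_of_mem hg
  have hgenmem : ∀ x, Valid N L x → ∀ g, x = Subgroup.zpowers g → g ∈ piEl N L := by
    intro x hx g hg
    obtain ⟨h1, h2, h3⟩ := hx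
    subst hg
    rw [mem_piEl]
    refine ⟨h1 (Subgroup.mem_zpowers g), ?_⟩
    rwa [Nat.card_zpowers] at h3
  by_cases hcase : ∀ y ∈ piEl N L, y ∈ X
  · have hEq : els X = piEl N L := by
      apply Finset.Subset.antisymm hXsub
      intro y hy
      rw [mem_els]; exact hcase y hy
    have hn : (piEl N L).card = Nat.card X := by rw [← hEq, card_els]
    apply star_cyclic (X := X) (zpowers_cyclic z) K hK p
    · intro x hx
      obtain ⟨g, hg⟩ := exists_gen x (hp x hx).2.1
      have := hcase g (hgenmem x (hp x hx) g hg)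
      rw [hg, Subgroup.zpowers_le]; exact this
    · rw [← hn]; exact h
  · push Not at hcase
    obtain ⟨y, hy, hyX⟩ := hcase
    have h3M := wide_count hz hy hyX
    have hMn : orderOf z ≤ (piEl N L).card := by
      have := Finset.card_le_card hXsub
      rwa [card_els, hXc] at this
    have hN3 : 3 ≤ N := by
      have hy1 : orderOf y ≠ 1 := by
        intro h1
        rw [orderOf_eq_one_iff] at h1
        apply hyX
        rw [h1]; exact X.one_mem
      obtain ⟨q, hq, hqd⟩ := Nat.exists_prime_and_dvd hy1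
      have := (mem_piEl.mp hy).2 q hq hqd
      have := hq.two_le
      omega
    -- number of distinct nodes
    have hs : 2 * p.toFinset.card ≤ orderOf z + 2 + 2 * ((piEl N L).card - orderOf z) := by
      have hsplit := Finset.card_filter_add_card_filter_not (s := p.toFinset) (fun x => x ≤ X)
      have hA : (p.toFinset.filter (fun x => x ≤ X)).card ≤ (orderOf z).divisors.card := by
        apply Finset.card_le_card_of_injOn (fun x : Subgroup G => Nat.card x)
        · intro x hx
          rw [Finset.mem_coe, Finset.mem_filter] at hx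
          rw [Finset.mem_coe, Nat.mem_divisors]
          refine ⟨?_, (orderOf_pos z).ne'⟩
          rw [← hXc]; exact Subgroup.card_dvd_of_le hx.2
        · intro x hx x' hx' hxx
          rw [Finset.mem_coe, Finset.mem_filter] at hx hx'
          simp only at hxx
          apply le_antisymm
          · exact cyc_le_of_dvd (zpowers_cyclic z) hx.2 hx'.2 (by rw [hxx])
          · exact cyc_le_of_dvd (zpowers_cyclic z) hx'.2 hx.2 (by rw [hxx])
      have hB : (p.toFinset.filter (fun x => ¬ x ≤ X)).card ≤ (piEl N L \ els X).card := by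
        have hg : ∀ x : Subgroup G, ∃ g : G, IsCyclic x → x = Subgroup.zpowers g := by
          intro x
          by_cases hx : IsCyclic x
          · obtain ⟨g, hg⟩ := exists_gen x hx
            exact ⟨g, fun _ => hg⟩
          · exact ⟨1, fun h => absurd h hx⟩
        choose γ hγ using hg
        apply Finset.card_le_card_of_injOn γ
        · intro x hx
          rw [Finset.mem_coe, Finset.mem_filter, Multiset.mem_toFinset] at hx
          have hv := hp x hx.1
          have e := hγ x hv.2.1
          rw [Finset.mem_coe, Finset.mem_sdiff]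
          refine ⟨hgenmem x hv _ e, ?_⟩
          intro hmem
          rw [mem_els] at hmem
          apply hx.2
          rw [e, Subgroup.zpowers_le]; exact hmem
        · intro x hx x' hx' hxx
          rw [Finset.mem_coe, Finset.mem_filter, Multiset.mem_toFinset] at hx hx'
          rw [hγ x (hp x hx.1).2.1, hγ x' (hp x' hx'.1).2.1, hxx]
      rw [Finset.card_sdiff_of_subset hXsub, card_els, hXc] at hB
      have hD := two_mul_divisors (orderOf z) (orderOf_pos z)
      omega
    have hK3 : 3 ≤ K := by omega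
    have harith := starG_arith K _ _ _ _ hK3 h3M hMn hs h
    have := extract (Mov := MovG) (fun x : Subgroup G => Nat.card x)
      (by intro x y q _ hm; exact hm.2) (bot := ⊥) (M := orderOf z) (n := (piEl N L).card)
      (by simp) (Valid N L) (fun p hp hc => hS L p hp hc)
      (by
        intro x hx
        refine ⟨card_pos' x, ?_⟩
        obtain ⟨g, hg⟩ := exists_gen x hx.2.1
        have h1 := hmax g (hgenmem x hx g hg)
        rw [hg, Nat.card_zpowers]; exact h1) (K - 1) p hp harith
    have e : K - 1 + 1 = K := by omega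
    rwa [e] at this


omit [Fintype G] in
lemma commute_of_centralizer {b D : Subgroup G} (h : D ≤ Subgroup.centralizer (b : Set G))
    {x y : G} (hx : x ∈ b) (hy : y ∈ D) : Commute x y := by
  have := h hy
  rw [Subgroup.mem_centralizer_iff] at this
  exact this x hx

omit [Fintype G] in
lemma card_sup (b D : Subgroup G) (h : D ≤ Subgroup.centralizer (b : Set G))
    (hc : Nat.Coprime (Nat.card b) (Nat.card D)) :
    Nat.card (b ⊔ D : Subgroup G) = Nat.card b * Nat.card D := by
  have comm : ∀ (m : b) (n : D), Commute (b.subtype m) (D.subtype n) := by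
    intro m n
    exact commute_of_centralizer h m.2 n.2
  have hdisj : Disjoint b D := by
    rw [disjoint_iff]
    apply Subgroup.card_eq_one.mp
    have h1 : Nat.card (b ⊓ D : Subgroup G) ∣ Nat.card b := Subgroup.card_dvd_of_le inf_le_left
    have h2 : Nat.card (b ⊓ D : Subgroup G) ∣ Nat.card D := Subgroup.card_dvd_of_le inf_le_right
    exact Nat.eq_one_of_dvd_coprimes hc h1 h2
  have hinj : Function.Injective (MonoidHom.noncommCoprod b.subtype D.subtype comm) := by
    rw [MonoidHom.noncommCoprod_injective]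
    refine ⟨Subtype.val_injective, Subtype.val_injective, ?_⟩
    simpa using hdisj
  have hrange := MonoidHom.noncommCoprod_range b.subtype D.subtype comm
  simp only [Subgroup.range_subtype] at hrange
  rw [← hrange]
  rw [← Nat.card_congr (MonoidHom.ofInjective hinj).toEquiv, Nat.card_prod]

lemma PiNum_coprime {r m : ℕ} (hr : r.Prime) (h : PiNum r m) (j : ℕ) : Nat.Coprime (r ^ j) m := by
  apply Nat.Coprime.pow_left
  rw [Nat.Prime.coprime_iff_not_dvd hr]
  intro hd
  exact absurd (h r hr hd) (lt_irrefl _)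

/-- decomposition of cyclic subgroups -/
lemma decomp {r : ℕ} (hr : r.Prime) {x : Subgroup G} (hx : IsCyclic x)
    (hP : PiNum (r + 1) (Nat.card x)) :
    ∃ b D : Subgroup G, b ≤ x ∧ D ≤ x ∧ (∃ j, Nat.card b = r ^ j) ∧ PiNum r (Nat.card D) ∧
      D ≤ Subgroup.centralizer (b : Set G) ∧ x = b ⊔ D := by
  obtain ⟨g, rfl⟩ := exists_gen x hx
  have hc0 := card_pos' (Subgroup.zpowers g)
  obtain ⟨j, m, hrm, hjm⟩ := Nat.exists_eq_pow_mul_and_not_dvd
    (n := Nat.card (Subgroup.zpowers g)) (by omega) r hr.ne_one
  obtain ⟨b, hb, hbc⟩ := exists_sub_of_dvd hx (d := r ^ j) (by rw [hjm]; exact Nat.dvd_mul_right _ _)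
  obtain ⟨D, hD, hDc⟩ := exists_sub_of_dvd hx (d := m) (by rw [hjm]; exact Nat.dvd_mul_left _ _)
  have hPm : PiNum r m := by
    intro q hq hqm
    have h1 := hP q hq (by rw [hjm]; exact hqm.trans (Nat.dvd_mul_left _ _))
    have h2 : q ≠ r := by
      rintro rfl
      exact hrm hqm
    omega
  have hcent : D ≤ Subgroup.centralizer (b : Set G) := by
    intro d hd
    rw [Subgroup.mem_centralizer_iff]
    intro h hh
    have h1 := hb hh
    have h2 := hD hd
    obtain ⟨k, rfl⟩ := Subgroup.mem_zpowers_iff.mp h1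
    obtain ⟨l, rfl⟩ := Subgroup.mem_zpowers_iff.mp h2
    rw [← zpow_add, ← zpow_add, add_comm]
  refine ⟨b, D, hb, hD, ⟨j, hbc⟩, by rw [hDc]; exact hPm, hcent, ?_⟩
  symm
  apply Subgroup.eq_of_le_of_card_ge (sup_le hb hD)
  rw [card_sup b D hcent (by rw [hbc, hDc]; exact PiNum_coprime hr hPm j), hbc, hDc, ← hjm]

/-- nodes over a set of `r`-subgroups -/
def ValidB (r : ℕ) (H : Subgroup G) (B : Finset (Subgroup G)) (x : Subgroup G) : Prop :=
  ∃ b ∈ B, ∃ D, Valid r (H ⊓ Subgroup.centralizer (b : Set G)) D ∧ x = b ⊔ D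

omit [Fintype G] in
lemma centralizer_bot_eq : Subgroup.centralizer ((⊥ : Subgroup G) : Set G) = ⊤ := by
  rw [eq_top_iff]
  intro x _
  rw [Subgroup.mem_centralizer_iff]
  intro h hh
  rw [SetLike.mem_coe, Subgroup.mem_bot] at hh
  rw [hh]; simp

set_option maxHeartbeats 1000000 in
lemma claimB {r : ℕ} (hr : r.Prime) (hS : SN G r) (H : Subgroup G) (n : ℕ) :
    ∀ B : Finset (Subgroup G), B.card = n → ⊥ ∈ B →
      (∀ b ∈ B, IsCyclic b ∧ ∃ j, Nat.card b = r ^ j) →
      (∀ b ∈ B, ∀ b' ≤ b, b' ∈ B) →
      ∀ p : Multiset (Subgroup G), (∀ x ∈ p, ValidB r H B x) →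
        ∑ b ∈ B, (Nat.card b).totient *
          (piEl r (H ⊓ Subgroup.centralizer (b : Set G))).card ≤ card p → Kp MovG ⊥ 1 p := by
  induction n using Nat.strong_induction_on with
  | _ n ih =>
    intro B hBn hbot hB hdown p hp hcard
    by_cases hB1 : B = {⊥}
    · subst hB1
      rw [Finset.sum_singleton] at hcard
      have e1 : (Nat.card (⊥ : Subgroup G)).totient = 1 := by
        rw [Subgroup.card_bot]; rfl
      rw [e1, one_mul, centralizer_bot_eq, inf_top_eq] at hcard
      apply hS H p _ hcard
      intro x hx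
      obtain ⟨b, hb, D, hD, rfl⟩ := hp x hx
      rw [Finset.mem_singleton] at hb
      subst hb
      rw [centralizer_bot_eq, inf_top_eq] at hD
      rwa [bot_sup_eq]
    · obtain ⟨b, hb, hmax⟩ := Finset.exists_max_image B (fun b : Subgroup G => Nat.card b) ⟨⊥, hbot⟩
      have hbne : b ≠ ⊥ := by
        rintro rfl
        apply hB1
        ext c
        rw [Finset.mem_singleton]
        refine ⟨fun hc => ?_, fun hc => by rw [hc]; exact hbot⟩
        have := hmax c hc
        simp only [Subgroup.card_bot] at this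
        have h2 := card_pos' c
        exact Subgroup.card_eq_one.mp (by omega)
      obtain ⟨hbcyc, j, hbj⟩ := hB b hb
      have hj : j ≠ 0 := by
        rintro rfl
        rw [pow_zero] at hbj
        exact hbne (Subgroup.card_eq_one.mp hbj)
      obtain ⟨j, rfl⟩ := Nat.exists_eq_succ_of_ne_zero hj
      obtain ⟨b', hb'b, hb'c⟩ := exists_sub_of_dvd hbcyc (d := r ^ j) (by
        rw [hbj]; exact pow_dvd_pow r (Nat.le_succ j))
      have hr2 := hr.two_le
      have hrj : 0 < r ^ j := by positivity
      have hb'ne : b' ≠ b := by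
        rintro rfl
        rw [hb'c, Nat.succ_eq_add_one, pow_succ] at hbj
        nlinarith
      set B' := B.erase b with hB'
      have hb'B : b' ∈ B' := Finset.mem_erase.mpr ⟨hb'ne, hdown b hb b' hb'b⟩
      have hbotB' : ⊥ ∈ B' := Finset.mem_erase.mpr ⟨hbne.symm, hbot⟩
      have hB'1 : ∀ c ∈ B', IsCyclic c ∧ ∃ j, Nat.card c = r ^ j :=
        fun c hc => hB c (Finset.mem_of_mem_erase hc)
      have hB'2 : ∀ c ∈ B', ∀ c' ≤ c, c' ∈ B' := by
        intro c hc c' hc'
        refine Finset.mem_erase.mpr ⟨?_, hdown c (Finset.mem_of_mem_erase hc) c' hc'⟩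
        rintro rfl
        have h1 := hmax c (Finset.mem_of_mem_erase hc)
        exact (Finset.ne_of_mem_erase hc) (Subgroup.eq_of_le_of_card_ge hc' h1).symm
      -- the new nodes
      set C := H ⊓ Subgroup.centralizer (b : Set G) with hC
      let T : Subgroup G → Prop := fun x => ∃ D, Valid r C D ∧ x = b ⊔ D
      set p1 := p.filter T with hp1
      set p0 := p.filter (fun x => ¬ T x) with hp0
      have hpe : p0 + p1 = p := by
        rw [add_comm]; exact Multiset.filter_add_not T p
      have hex : ∀ x : Subgroup G, ∃ D : Subgroup G, T x → Valid r C D ∧ x = b ⊔ D := by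
        intro x
        by_cases hx : T x
        · obtain ⟨D, hD⟩ := hx
          exact ⟨D, fun _ => hD⟩
        · exact ⟨⊥, fun h => absurd h hx⟩
      choose δ hδ using hex
      have hT1 : ∀ x ∈ p1, Valid r C (δ x) ∧ x = b ⊔ δ x := by
        intro x hx
        rw [hp1, Multiset.mem_filter] at hx
        exact hδ x hx.2
      have hcardsup : ∀ (c D : Subgroup G), c ≤ b → (∃ i, Nat.card c = r ^ i) → Valid r C D →
          Nat.card (c ⊔ D : Subgroup G) = Nat.card c * Nat.card D := by
        intro c D hcb hci hD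
        obtain ⟨i, hi⟩ := hci
        apply card_sup
        · intro d hd
          have h1 := (hD.1 hd)
          rw [hC, Subgroup.mem_inf] at h1
          rw [Subgroup.mem_centralizer_iff]
          intro h hh
          exact (Subgroup.mem_centralizer_iff.mp h1.2) h (hcb hh)
        · rw [hi]; exact PiNum_coprime hr hD.2.2 i
      have hf : ∀ x ∈ p1, MovG x (b' ⊔ δ x) r := by
        intro x hx
        obtain ⟨h1, h2⟩ := hT1 x hx
        refine ⟨?_, ?_⟩
        · conv_rhs => rw [h2]
          exact sup_le_sup_right hb'b _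
        · conv_lhs => rw [h2]
          rw [hcardsup b _ le_rfl ⟨_, hbj⟩ h1, hcardsup b' _ hb'b ⟨_, hb'c⟩ h1, hbj, hb'c,
            Nat.succ_eq_add_one, pow_succ]
          ring
      rw [← hpe]
      apply level p0 p1 (fun x => b' ⊔ δ x) hr2 hf ⊥
        (∑ c ∈ B', (Nat.card c).totient *
          (piEl r (H ⊓ Subgroup.centralizer (c : Set G))).card) (r ^ j * (piEl r C).card)
      · intro q hq hcq
        apply ih B'.card (by rw [hB', Finset.card_erase_of_mem hb, ← hBn]
                             have := Finset.card_pos.mpr ⟨b, hb⟩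
                             omega) B' rfl hbotB' hB'1 hB'2 _ _ hcq
        intro x hx
        rw [Multiset.mem_add] at hx
        rcases hx with hx | hx
        · rw [hp0, Multiset.mem_filter] at hx
          obtain ⟨c, hc, D, hD, e⟩ := hp x hx.1
          refine ⟨c, Finset.mem_erase.mpr ⟨?_, hc⟩, D, hD, e⟩
          rintro rfl
          exact hx.2 ⟨D, hD, e⟩
        · obtain ⟨x', hx', rfl⟩ := hq x hx
          refine ⟨b', hb'B, δ x', ?_, rfl⟩
          obtain ⟨h1, h2⟩ := hT1 x' hx'
          refine ⟨h1.1.trans ?_, h1.2⟩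
          apply inf_le_inf_left
          exact Subgroup.centralizer_le (by exact_mod_cast hb'b)
      · intro htop
        set P := p1.map δ with hP
        have hPv : ∀ D ∈ P, Valid r C D := by
          intro D hD
          rw [hP, Multiset.mem_map] at hD
          obtain ⟨x, hx, rfl⟩ := hD
          exact (hT1 x hx).1
        have hPm : P.map (fun D => b ⊔ D) = p1 := by
          rw [hP, Multiset.map_map]
          conv_rhs => rw [← Multiset.map_id p1]
          apply Multiset.map_congr rfl
          intro x hx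
          simp only [Function.comp_apply, id]
          exact (hT1 x hx).2.symm
        have hPc : card P = card p1 := by rw [hP, Multiset.card_map]
        have hPs : p1.toFinset.card ≤ P.toFinset.card := by
          conv_lhs => rw [← hPm]
          rw [Multiset.toFinset_map]
          exact Finset.card_image_le
        have hK2 : 2 ≤ r ^ (j + 1) := by
          calc 2 ≤ r := hr2
            _ = r ^ 1 := (pow_one r).symm
            _ ≤ r ^ (j + 1) := Nat.pow_le_pow_right (by omega) (by omega)
        have hKr : r ≤ r ^ (j + 1) := by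
          calc r = r ^ 1 := (pow_one r).symm
            _ ≤ r ^ (j + 1) := Nat.pow_le_pow_right (by omega) (by omega)
        have h1 : Kp MovG ⊥ (r ^ (j + 1)) P := starG hS C (r ^ (j + 1)) hK2 hKr P hPv (by
          have e : r * (r ^ j * (piEl r C).card) = r ^ (j + 1) * (piEl r C).card := by
            rw [pow_succ]; ring
          rw [← e]; omega)
        have h2 := h1.map (MovW := MovG) (fun D => b ⊔ D) (fun D => Valid r C D)
          (fun x y q _ hm hx => hx.sub hm.1)
          (by
            intro x y q _ hm hx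
            refine ⟨sup_le_sup_left hm.1 _, ?_⟩
            rw [hcardsup b x le_rfl ⟨_, hbj⟩ hx, hcardsup b y le_rfl ⟨_, hbj⟩ (hx.sub hm.1), hm.2]
            ring) hPv
        rw [hPm] at h2
        simp only [sup_bot_eq] at h2
        apply Kp.step (q := r ^ (j + 1)) (k := 1) (by omega) (x := b) (y := ⊥)
          ⟨bot_le, by rw [Subgroup.card_bot, hbj]; simp⟩
        simpa using h2
      · have h1 := Finset.add_sum_erase B (fun c : Subgroup G => (Nat.card c).totient *
          (piEl r (H ⊓ Subgroup.centralizer (c : Set G))).card) hb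
        rw [← Multiset.card_add, hpe]
        refine le_trans ?_ hcard
        rw [← h1, add_comm]
        apply Nat.add_le_add_right
        rw [hbj, Nat.succ_eq_add_one, Nat.totient_prime_pow_succ hr]
        apply le_of_eq; ring


/-- generators of a subgroup -/
noncomputable def gens (b : Subgroup G) : Finset G :=
  Finset.univ.filter (fun g => Subgroup.zpowers g = b)

lemma card_gens {b : Subgroup G} (hb : IsCyclic b) : (Nat.card b).totient ≤ (gens b).card := by
  have h := IsCyclic.card_orderOf_eq_totient (α := b) (d := Fintype.card b) dvd_rfl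
  rw [Nat.card_eq_fintype_card, ← h]
  apply Finset.card_le_card_of_injOn (fun a : b => (a : G))
  · intro a ha
    rw [Finset.mem_coe, Finset.mem_filter] at ha
    rw [Finset.mem_coe, gens, Finset.mem_filter]
    refine ⟨Finset.mem_univ _, ?_⟩
    apply Subgroup.eq_of_le_of_card_ge
    · rw [Subgroup.zpowers_le]; exact a.2
    · rw [Nat.card_zpowers, Subgroup.orderOf_coe, ha.2, Nat.card_eq_fintype_card]
  · intro a _ a' _ h
    exact Subtype.ext h

lemma count_all {r : ℕ} (hr : r.Prime) (H : Subgroup G) (B : Finset (Subgroup G))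
    (hB : ∀ b ∈ B, b ≤ H ∧ IsCyclic b ∧ ∃ j, Nat.card b = r ^ j) :
    ∑ b ∈ B, (Nat.card b).totient * (piEl r (H ⊓ Subgroup.centralizer (b : Set G))).card ≤
      (piEl (r + 1) H).card := by
  have h1 : ∑ b ∈ B, (Nat.card b).totient *
      (piEl r (H ⊓ Subgroup.centralizer (b : Set G))).card ≤
      (B.sigma (fun b => gens b ×ˢ piEl r (H ⊓ Subgroup.centralizer (b : Set G)))).card := by
    rw [Finset.card_sigma]
    apply Finset.sum_le_sum
    intro b hb
    rw [Finset.card_product]
    exact Nat.mul_le_mul_right _ (card_gens (hB b hb).2.1)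
  refine h1.trans ?_
  -- idempotent exponent
  have hG0 : Fintype.card G ≠ 0 := Fintype.card_ne_zero
  obtain ⟨a, m0, hrm, hGm⟩ := Nat.exists_eq_pow_mul_and_not_dvd (n := Fintype.card G) hG0 r hr.ne_one
  have hcop : Nat.Coprime (r ^ a) m0 :=
    Nat.Coprime.pow_left a ((Nat.Prime.coprime_iff_not_dvd hr).mpr hrm)
  obtain ⟨e, he1, he2⟩ := Nat.chineseRemainder hcop 1 0
  have hx_e : ∀ x : G, (∃ j, orderOf x = r ^ j) → x ^ e = x := by
    intro x ⟨j, hj⟩
    have hd : orderOf x ∣ r ^ a * m0 := by rw [← hGm]; exact orderOf_dvd_card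
    have hd2 : orderOf x ∣ r ^ a := by
      apply Nat.Coprime.dvd_of_dvd_mul_right _ hd
      rw [hj]
      exact Nat.Coprime.pow_left j ((Nat.Prime.coprime_iff_not_dvd hr).mpr hrm)
    have h3 : e ≡ 1 [MOD orderOf x] := he1.of_dvd hd2
    calc x ^ e = x ^ 1 := (pow_eq_pow_iff_modEq).mpr h3
      _ = x := pow_one x
  have hy_e : ∀ y : G, PiNum r (orderOf y) → y ^ e = 1 := by
    intro y hy
    have hd : orderOf y ∣ r ^ a * m0 := by rw [← hGm]; exact orderOf_dvd_card
    have hd2 : orderOf y ∣ m0 := by
      apply Nat.Coprime.dvd_of_dvd_mul_left _ hd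
      exact (PiNum_coprime hr hy a).symm
    have h3 : e ≡ 0 [MOD orderOf y] := he2.of_dvd hd2
    exact orderOf_dvd_iff_pow_eq_one.mp ((Nat.modEq_zero_iff_dvd).mp h3)
  have facts : ∀ t ∈ (B.sigma (fun b => gens b ×ˢ piEl r (H ⊓ Subgroup.centralizer (b : Set G)))),
      t.1 ∈ B ∧ Subgroup.zpowers t.2.1 = t.1 ∧ t.2.1 ∈ H ∧ (∃ j, orderOf t.2.1 = r ^ j) ∧
        t.2.2 ∈ H ∧ PiNum r (orderOf t.2.2) ∧ Commute t.2.1 t.2.2 := by
    rintro ⟨b, x, y⟩ ht
    simp only [Finset.mem_sigma, Finset.mem_product] at ht
    obtain ⟨hb, hx, hy⟩ := ht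
    rw [gens, Finset.mem_filter] at hx
    rw [mem_piEl, Subgroup.mem_inf] at hy
    obtain ⟨h1, h2, j, hj⟩ := hB b hb
    have hxb : x ∈ b := by rw [← hx.2]; exact Subgroup.mem_zpowers x
    refine ⟨hb, hx.2, h1 hxb, ⟨j, ?_⟩, hy.1.1, hy.2, ?_⟩
    · rw [← Nat.card_zpowers, hx.2, hj]
    · exact (Subgroup.mem_centralizer_iff.mp hy.1.2) x hxb
  have hmul_e : ∀ t ∈ (B.sigma (fun b => gens b ×ˢ piEl r (H ⊓ Subgroup.centralizer (b : Set G)))),
      (t.2.1 * t.2.2) ^ e = t.2.1 := by
    intro t ht
    obtain ⟨_, _, _, h4, _, h6, h7⟩ := facts t ht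
    rw [h7.mul_pow, hx_e _ h4, hy_e _ h6, mul_one]
  apply Finset.card_le_card_of_injOn (fun t => t.2.1 * t.2.2)
  · intro t ht
    rw [Finset.mem_coe] at ht
    obtain ⟨_, _, h3, ⟨j, h4⟩, h5, h6, h7⟩ := facts t ht
    rw [Finset.mem_coe, mem_piEl]
    refine ⟨H.mul_mem h3 h5, ?_⟩
    intro q hq hqd
    have hd := hqd.trans h7.orderOf_mul_dvd_mul_orderOf
    rcases (Nat.Prime.dvd_mul hq).mp hd with h | h
    · rw [h4] at h
      have := (Nat.prime_dvd_prime_iff_eq hq hr).mp (hq.dvd_of_dvd_pow h)
      omega
    · have := h6 q hq h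
      omega
  · intro t ht t' ht' heq
    rw [Finset.mem_coe] at ht ht'
    simp only at heq
    have e1 := hmul_e t ht
    have e2 := hmul_e t' ht'
    rw [heq] at e1
    have hx : t.2.1 = t'.2.1 := by rw [← e1, e2]
    have hy : t.2.2 = t'.2.2 := by
      rw [hx] at heq
      exact mul_left_cancel heq
    obtain ⟨b, x, y⟩ := t
    obtain ⟨b', x', y'⟩ := t'
    have hb1 := (facts _ ht).2.1
    have hb2 := (facts _ ht').2.1
    simp only at hx hy hb1 hb2
    subst hx hy
    rw [← hb1, ← hb2]

lemma SN_succ_prime {r : ℕ} (hr : r.Prime) (hS : SN G r) : SN G (r + 1) := by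
  intro H p hp hcard
  have : Fintype (Subgroup G) := Fintype.ofFinite _
  let B : Finset (Subgroup G) :=
    Finset.univ.filter (fun b => b ≤ H ∧ IsCyclic b ∧ ∃ j, Nat.card b = r ^ j)
  have hB : ∀ b ∈ B, b ≤ H ∧ IsCyclic b ∧ ∃ j, Nat.card b = r ^ j := by
    intro b hb
    exact (Finset.mem_filter.mp hb).2
  apply claimB hr hS H B.card B rfl
  · rw [Finset.mem_filter]
    refine ⟨Finset.mem_univ _, bot_le, inferInstance, 0, by simp⟩
  · intro b hb
    exact (hB b hb).2
  · intro b hb b' hb'
    obtain ⟨h1, h2, j, hj⟩ := hB b hb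
    rw [Finset.mem_filter]
    have := h2
    refine ⟨Finset.mem_univ _, hb'.trans h1, Subgroup.isCyclic_of_le hb', ?_⟩
    have hd := Subgroup.card_dvd_of_le hb'
    rw [hj] at hd
    obtain ⟨i, _, hi⟩ := (Nat.dvd_prime_pow hr).mp hd
    exact ⟨i, hi⟩
  · intro x hx
    obtain ⟨h1, h2, h3⟩ := hp x hx
    obtain ⟨b, D, hb, hD, hj, hDP, hcent, e⟩ := decomp hr h2 h3
    have := h2
    refine ⟨b, ?_, D, ⟨le_inf (hD.trans h1) hcent, Subgroup.isCyclic_of_le hD, hDP⟩, e⟩
    rw [Finset.mem_filter]
    exact ⟨Finset.mem_univ _, hb.trans h1, Subgroup.isCyclic_of_le hb, hj⟩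
  · exact (count_all hr H B hB).trans hcard

lemma SN_all (N : ℕ) : SN G N := by
  induction N with
  | zero =>
    intro H p hp hcard
    have h1 : 1 ∈ piEl 0 H := by
      rw [mem_piEl]
      refine ⟨H.one_mem, ?_⟩
      intro q hq hq1
      rw [orderOf_one] at hq1
      exact absurd (Nat.dvd_one.mp hq1) hq.ne_one
    have h2 : 0 < card p := lt_of_lt_of_le (Finset.card_pos.mpr ⟨1, h1⟩) hcard
    obtain ⟨x, hx⟩ := Multiset.card_pos_iff_exists_mem.mp h2
    obtain ⟨_, _, h5⟩ := hp x hx
    have hx1 : Nat.card x = 1 := by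
      by_contra hne
      obtain ⟨q, hq, hqd⟩ := Nat.exists_prime_and_dvd hne
      exact absurd (h5 q hq hqd) (Nat.not_lt_zero _)
    have : x = ⊥ := Subgroup.card_eq_one.mp hx1
    subst this
    apply Kp.self
    rw [Multiset.replicate_one]
    exact Multiset.singleton_le.mpr hx
  | succ N ih =>
    by_cases hN : N.Prime
    · exact SN_succ_prime hN ih
    · have hiff : ∀ m, PiNum (N + 1) m ↔ PiNum N m := by
        intro m
        constructor
        · intro h q hq hqd
          have h1 := h q hq hqd
          have h2 : q ≠ N := by rintro rfl; exact hN hq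
          omega
        · intro h q hq hqd
          have := h q hq hqd
          omega
      intro H p hp hcard
      apply ih H p
      · intro x hx
        obtain ⟨h1, h2, h3⟩ := hp x hx
        exact ⟨h1, h2, (hiff _).mp h3⟩
      · have : piEl (N + 1) H = piEl N H := by
          ext g
          rw [mem_piEl, mem_piEl, hiff]
        rwa [this] at hcard

/-- the main combinatorial theorem -/
lemma main_pebbling (p : Multiset (Subgroup G)) (hp : ∀ x ∈ p, IsCyclic x)
    (hcard : Fintype.card G ≤ card p) : Kp MovG ⊥ 1 p := by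
  apply SN_all (Fintype.card G + 1) ⊤ p
  · intro x hx
    refine ⟨le_top, hp x hx, ?_⟩
    intro q _ hqd
    have h1 : Nat.card x ∣ Nat.card G := Subgroup.card_subgroup_dvd_card x
    have h2 := Nat.le_of_dvd Nat.card_pos (hqd.trans h1)
    rw [Nat.card_eq_fintype_card] at h2
    omega
  · refine le_trans ?_ hcard
    exact Finset.card_le_univ _

/-! ### realisation -/

variable {ι : Type*} (g : ι → G)

/-- a pebble: a subgroup together with a list of indices -/
def Peb (f : Subgroup G × List ι) : Prop :=
  f.2 ≠ [] ∧ (f.2.map g).prod ∈ f.1 ∧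
    (f.2.map (fun k => (1 : ℚ) / orderOf (g k))).sum ≤ 1 / Nat.card f.1

/-- consecutive block with product in a subgroup -/
lemma exists_block (x y : Subgroup G) (hyx : y ≤ x) (q : ℕ) (hq : Nat.card x = q * Nat.card y)
    (L : List (List ι)) (hL : L.length = q) (hx : ∀ l ∈ L, (l.map g).prod ∈ x) :
    ∃ L1 L2 L3 : List (List ι), L = L1 ++ L2 ++ L3 ∧ L2 ≠ [] ∧ ((L2.flatten).map g).prod ∈ y := by
  -- prefix products
  let P : ℕ → G := fun i => (((L.take i).flatten).map g).prod
  have hPx : ∀ i, P i ∈ x := by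
    intro i
    simp only [P]
    rw [List.map_flatten, List.prod_flatten]
    apply Subgroup.list_prod_mem
    intro a ha
    rw [List.map_map, List.mem_map] at ha
    obtain ⟨l, hl, rfl⟩ := ha
    exact hx l (List.mem_of_mem_take hl)
  have hidx : y.relIndex x = q := by
    have h1 := Subgroup.card_mul_index (y.subgroupOf x)
    have h2 : Nat.card (y.subgroupOf x) = Nat.card y :=
      Nat.card_congr (Subgroup.subgroupOfEquivOfLe hyx).toEquiv
    rw [h2, hq, mul_comm q] at h1
    exact Nat.eq_of_mul_eq_mul_left (card_pos' y) h1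
  -- pigeonhole into the quotient
  let f : Fin (q + 1) → x ⧸ (y.subgroupOf x) := fun i => QuotientGroup.mk (⟨P i, hPx i⟩ : x)
  have hcardq : Fintype.card (x ⧸ (y.subgroupOf x)) = q := by
    rw [← Nat.card_eq_fintype_card]
    exact hidx
  obtain ⟨i, j, hij, hfij⟩ := Fintype.exists_ne_map_eq_of_card_lt f (by
    rw [hcardq, Fintype.card_fin]; omega)
  wlog hlt : (i : ℕ) < j generalizing i j with Hw
  · apply Hw j i hij.symm hfij.symm
    have : (i : ℕ) ≠ j := fun h => hij (Fin.ext h)
    omega
  have hPy : (P i)⁻¹ * P j ∈ y := by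
    have := QuotientGroup.eq.mp hfij
    rw [Subgroup.mem_subgroupOf] at this
    simpa using this
  refine ⟨L.take i, (L.drop i).take (j - i), L.drop j, ?_, ?_, ?_⟩
  · have e1 : L.take j = L.take i ++ (L.drop i).take (j - i) := by
      conv_lhs => rw [show (j : ℕ) = i + (j - i) by omega]
      rw [List.take_add]
    rw [← e1, List.take_append_drop]
  · intro h
    have := congrArg List.length h
    rw [List.length_take, List.length_drop, List.length_nil] at this
    have := j.isLt
    omega
  · have e1 : L.take j = L.take i ++ (L.drop i).take (j - i) := by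
      conv_lhs => rw [show (j : ℕ) = i + (j - i) by omega]
      rw [List.take_add]
    have e2 : P j = P i * (((List.flatten ((L.drop i).take (j - i)))).map g).prod := by
      simp only [P]
      rw [e1, List.flatten_append, List.map_append, List.prod_append]
    rw [e2] at hPy
    simpa using hPy


lemma map_eq_add {α β : Type*} (f : α → β) (a : Multiset β) :
    ∀ (F : Multiset α) (b : Multiset β), F.map f = a + b →
      ∃ F1 F2, F = F1 + F2 ∧ F1.map f = a ∧ F2.map f = b := by
  induction a using Multiset.induction_on with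
  | empty => intro F b h; exact ⟨0, F, by simp, by simp, by simpa using h⟩
  | cons x a ih =>
    intro F b h
    rw [Multiset.cons_add] at h
    obtain ⟨c, hc, hfc, h2⟩ := (Multiset.map_eq_cons f F (a + b) x).mpr h
    obtain ⟨F1, F2, e, h3, h4⟩ := ih (F.erase c) b h2
    refine ⟨c ::ₘ F1, F2, ?_, ?_, h4⟩
    · rw [Multiset.cons_add, ← e, Multiset.cons_erase hc]
    · rw [Multiset.map_cons, hfc, h3]

/-- total index multiset -/
def idx (F : Multiset (Subgroup G × List ι)) : Multiset ι := (F.map (fun f => (f.2 : Multiset ι))).sum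

lemma realize_step (F : Multiset (Subgroup G × List ι)) (hF : ∀ f ∈ F, Peb g f)
    (p' : Multiset (Subgroup G)) (h : Step MovG (F.map Prod.fst) p') :
    ∃ F' : Multiset (Subgroup G × List ι), (∀ f ∈ F', Peb g f) ∧ F'.map Prod.fst = p' ∧
      idx F' ≤ idx F := by
  obtain ⟨x, y, q, t, hq, ⟨hyx, hcard⟩, h1, h2⟩ := h
  obtain ⟨F1, F2, e, h3, h4⟩ := map_eq_add Prod.fst (replicate q x) F t h1
  obtain ⟨L0, hL0⟩ := Quotient.exists_rep F1
  have hL0 : (L0 : Multiset (Subgroup G × List ι)) = F1 := hL0
  set L : List (List ι) := L0.map Prod.snd with hL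
  have hlen : L.length = q := by
    have := congrArg Multiset.card h3
    rw [Multiset.card_map, Multiset.card_replicate, ← hL0, Multiset.coe_card] at this
    rw [hL, List.length_map, this]
  have hmem : ∀ f ∈ L0, f.1 = x ∧ Peb g f := by
    intro f hf
    have hf1 : f ∈ F1 := by rw [← hL0]; exact Multiset.mem_coe.mpr hf
    refine ⟨?_, hF f (by rw [e]; exact Multiset.mem_add.mpr (Or.inl hf1))⟩
    have : f.1 ∈ F1.map Prod.fst := Multiset.mem_map_of_mem _ hf1
    rw [h3] at this
    exact Multiset.eq_of_mem_replicate this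
  have hLmem : ∀ l ∈ L, l ≠ [] ∧ (l.map g).prod ∈ x ∧
      (l.map (fun k => (1 : ℚ) / orderOf (g k))).sum ≤ 1 / Nat.card x := by
    intro l hl
    rw [hL, List.mem_map] at hl
    obtain ⟨f, hf, rfl⟩ := hl
    obtain ⟨e1, e2, e3, e4⟩ := hmem f hf
    rw [e1] at e3 e4
    exact ⟨e2, e3, e4⟩
  obtain ⟨L1, L2, L3, hLe, hL2, hprod⟩ := exists_block g x y hyx q hcard L hlen
    (fun l hl => (hLmem l hl).2.1)
  have hL2mem : ∀ l ∈ L2, l ∈ L := by
    intro l hl
    rw [hLe]
    exact List.mem_append_left _ (List.mem_append_right _ hl)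
  refine ⟨(y, L2.flatten) ::ₘ F2, ?_, ?_, ?_⟩
  · intro f hf
    rw [Multiset.mem_cons] at hf
    rcases hf with rfl | hf
    · refine ⟨?_, hprod, ?_⟩
      · obtain ⟨l, hl⟩ := List.exists_mem_of_ne_nil L2 hL2
        obtain ⟨k, hk⟩ := List.exists_mem_of_ne_nil l (hLmem l (hL2mem l hl)).1
        exact List.ne_nil_of_mem (List.mem_flatten.mpr ⟨l, hl, hk⟩)
      · simp only
        have hcq : (Nat.card x : ℚ) = q * Nat.card y := by exact_mod_cast hcard
        have hy0 : (0 : ℚ) < Nat.card y := by exact_mod_cast card_pos' y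
        have hq0 : (0 : ℚ) < q := by exact_mod_cast hq
        have hb : ∀ M : List (List ι), (∀ l ∈ M, l ∈ L) →
            ((M.flatten).map (fun k => (1 : ℚ) / orderOf (g k))).sum ≤ M.length * (1 / Nat.card x) := by
          intro M
          induction M with
          | nil => intro _; simp
          | cons l M ih =>
            intro hM
            rw [List.flatten_cons, List.map_append, List.sum_append, List.length_cons]
            have i1 := ih (fun l hl => hM l (List.mem_cons_of_mem _ hl))
            have i2 := (hLmem l (hM l List.mem_cons_self)).2.2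
            push_cast
            linarith
        have hb2 := hb L2 hL2mem
        have hlen2 : L2.length ≤ q := by
          rw [← hlen, hLe, List.length_append, List.length_append]; omega
        have hlen3 : (L2.length : ℚ) ≤ q := by exact_mod_cast hlen2
        refine hb2.trans ?_
        rw [hcq]
        calc (L2.length : ℚ) * (1 / (q * Nat.card y)) ≤ q * (1 / (q * Nat.card y)) := by
              apply mul_le_mul_of_nonneg_right hlen3
              positivity
          _ = 1 / Nat.card y := by field_simp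
    · exact hF f (by rw [e]; exact Multiset.mem_add.mpr (Or.inr hf))
  · rw [Multiset.map_cons, h4, h2]
  · rw [e]
    simp only [idx, Multiset.map_cons, Multiset.sum_cons, Multiset.map_add, Multiset.sum_add]
    apply Multiset.add_le_add_right ?_
    have e5 : (F1.map (fun f => (f.2 : Multiset ι))).sum = (L.flatten : Multiset ι) := by
      rw [← hL0, ← Multiset.coe_join, hL, List.map_map]
      rfl
    rw [e5]
    apply Multiset.coe_le.mpr
    apply List.Sublist.subperm
    apply List.Sublist.flatten
    rw [hLe]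
    exact (List.sublist_append_right L1 L2).trans (List.sublist_append_left _ _)

lemma realize (p p' : Multiset (Subgroup G)) (h : Red MovG p p') (F : Multiset (Subgroup G × List ι))
    (hF : ∀ f ∈ F, Peb g f) (hp : F.map Prod.fst = p) :
    ∃ F' : Multiset (Subgroup G × List ι), (∀ f ∈ F', Peb g f) ∧ F'.map Prod.fst = p' ∧
      idx F' ≤ idx F := by
  induction h with
  | refl => exact ⟨F, hF, hp, le_rfl⟩
  | tail _ hbc ih =>
    obtain ⟨F1, h1, h2, h3⟩ := ih
    rw [← h2] at hbc
    obtain ⟨F2, h4, h5, h6⟩ := realize_step g F1 h1 _ hbc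
    exact ⟨F2, h4, h5, h6.trans h3⟩

theorem main [Fintype ι] (hι : Fintype.card G ≤ Fintype.card ι) :
    ∃ l : List ι, l ≠ [] ∧ l.Nodup ∧ (l.map g).prod = 1 ∧
      (l.map (fun k => (1 : ℚ) / orderOf (g k))).sum ≤ 1 := by
  let F : Multiset (Subgroup G × List ι) :=
    (Finset.univ : Finset ι).val.map (fun k => (Subgroup.zpowers (g k), [k]))
  have hF : ∀ f ∈ F, Peb g f := by
    intro f hf
    rw [Multiset.mem_map] at hf
    obtain ⟨k, _, rfl⟩ := hf
    refine ⟨by simp, by simp, ?_⟩
    simp only [List.map_cons, List.map_nil, List.sum_cons, List.sum_nil, add_zero]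
    rw [Nat.card_zpowers]
  obtain ⟨t, ht⟩ := main_pebbling (F.map Prod.fst) (by
    intro x hx
    rw [Multiset.mem_map] at hx
    obtain ⟨f, hf, rfl⟩ := hx
    rw [Multiset.mem_map] at hf
    obtain ⟨k, _, rfl⟩ := hf
    exact zpowers_cyclic (g k)) (by
    rw [Multiset.card_map, Multiset.card_map]
    exact hι)
  obtain ⟨F', h1, h2, h3⟩ := realize g _ _ ht F hF rfl
  have hmem : (⊥ : Subgroup G) ∈ F'.map Prod.fst := by
    rw [h2]; simp
  rw [Multiset.mem_map] at hmem
  obtain ⟨f, hf, hfb⟩ := hmem
  obtain ⟨e1, e2, e3⟩ := h1 f hf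
  rw [hfb] at e2 e3
  refine ⟨f.2, e1, ?_, Subgroup.mem_bot.mp e2, by simpa using e3⟩
  have hidx : idx F = (Finset.univ : Finset ι).val := by
    simp only [idx, F, Multiset.map_map, Function.comp_def, Multiset.coe_singleton]
    exact Multiset.sum_map_singleton _
  have h4 : (f.2 : Multiset ι) ≤ idx F' := by
    exact Multiset.single_le_sum (fun _ _ => Multiset.zero_le _) _ (Multiset.mem_map_of_mem _ hf)
  have h5 : (f.2 : Multiset ι) ≤ (Finset.univ : Finset ι).val := by
    rw [← hidx]; exact h4.trans h3
  exact Multiset.coe_nodup.mp (Multiset.nodup_of_le h5 Finset.univ.nodup)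

end Pool.Agent.Results.MP_94c9ac_al.Q1AllGroups.Grp

namespace Pool.Agent.Results.MP_94c9ac_al.Q1AllGroups

/-- Every sequence of `n` elements of a finite group of order `n` has a nonempty index set `K` whose
terms multiply to the identity in some order, with the sum of the reciprocals of the orders at most one. -/
theorem result (G : Type*) [Group G] [Finite G] (g : Fin (Nat.card G) → G) :
    ∃ K : Finset (Fin (Nat.card G)), K.Nonempty ∧
      (∃ l : List (Fin (Nat.card G)), l.Nodup ∧ l.toFinset = K ∧ (l.map g).prod = 1) ∧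
      ∑ k ∈ K, (1 : ℚ) / (orderOf (g k) : ℚ) ≤ 1 := by
  have : Fintype G := Fintype.ofFinite G
  obtain ⟨l, h1, h2, h3, h4⟩ := Grp.main g (by
    rw [Fintype.card_fin, Nat.card_eq_fintype_card])
  refine ⟨l.toFinset, ?_, ⟨l, h2, rfl, h3⟩, ?_⟩
  · obtain ⟨k, hk⟩ := List.exists_mem_of_ne_nil l h1
    exact ⟨k, List.mem_toFinset.mpr hk⟩
  · rw [List.sum_toFinset _ h2]
    exact h4

end Pool.Agent.Results.MP_94c9ac_al.Q1AllGroups

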